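import Mathlib

set_option autoImplicit false

namespace Pool.Agent.H230R2.RM

open Finset

/-- cyclic distance of residues -/
def cd {K : ℕ} (u v : ZMod K) : ℕ := min (v - u).val (u - v).val

lemma cd_comm {K : ℕ} (u v : ZMod K) : cd u v = cd v u := min_comm _ _

lemma cd_self {K : ℕ} [NeZero K] (u : ZMod K) : cd u u = 0 := by simp [cd]

lemma arc_aux (h : ℕ) (l : ℕ) (hl : l ≤ h) (u v : ZMod (2*h+1))
    (hle : (v - u).val ≤ (u - v).val) :
    (univ.filter (fun t : ZMod (2*h+1) => (u - t).val < l ∧ (v - t).val < l)).card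
      ≤ l - (v - u).val := by
  set d := (v - u).val with hd
  have hdh : d ≤ h := by
    by_cases h0 : v - u = 0
    · rw [hd, h0]; simp
    · have h1 : (u - v).val = (2*h+1) - (v - u).val := by
        rw [← neg_sub v u]
        have : NeZero (v - u) := ⟨h0⟩
        exact ZMod.val_neg_of_ne_zero (v - u)
      have h2 : (v-u).val < 2*h+1 := ZMod.val_lt _
      omega
  calc _ ≤ ((univ.filter (fun t : ZMod (2*h+1) => (u - t).val < l ∧ (v - t).val < l)).image
        (fun t => (u - t).val)).card := by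
        rw [card_image_of_injective]
        intro s t hst
        have := ZMod.val_injective _ hst
        exact sub_right_injective this
    _ ≤ (range (l - d)).card := by
        apply card_le_card
        intro a ha
        rw [mem_image] at ha
        obtain ⟨t, ht, rfl⟩ := ha
        rw [mem_filter] at ht
        rw [mem_range]
        obtain ⟨-, h1, h2⟩ := ht
        have h3 : v - t = (v - u) + (u - t) := by ring
        rw [h3, ZMod.val_add, Nat.mod_eq_of_lt (by omega)] at h2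
        omega
    _ = _ := card_range _

lemma arc_count (h : ℕ) (l : ℕ) (hl : l ≤ h) (u v : ZMod (2*h+1)) :
    (univ.filter (fun t : ZMod (2*h+1) => (u - t).val < l ∧ (v - t).val < l)).card
      ≤ l - cd u v := by
  rcases le_total (v - u).val (u - v).val with hle | hle
  · have := arc_aux h l hl u v hle
    rw [cd, min_eq_left hle]; exact this
  · have := arc_aux h l hl v u hle
    rw [cd, min_eq_right hle]
    refine le_trans (le_of_eq ?_) this
    congr 1
    ext t
    simp [and_comm]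

lemma arc_len (h l : ℕ) (hl : l ≤ h) (u : ZMod (2*h+1)) :
    (univ.filter (fun t : ZMod (2*h+1) => (u - t).val < l)).card = l := by
  have : (univ.filter (fun t : ZMod (2*h+1) => (u - t).val < l)).card = (range l).card := by
    apply card_bij (fun t _ => (u - t).val)
    · intro t ht
      rw [mem_filter] at ht
      exact mem_range.mpr ht.2
    · intro s _ t _ hst
      have := ZMod.val_injective _ hst
      exact sub_right_injective this
    · intro a ha
      rw [mem_range] at ha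
      refine ⟨u - (a : ZMod (2*h+1)), ?_, ?_⟩
      · rw [mem_filter]
        refine ⟨mem_univ _, ?_⟩
        rw [sub_sub_cancel, ZMod.val_natCast, Nat.mod_eq_of_lt (by omega)]
        exact ha
      · rw [sub_sub_cancel, ZMod.val_natCast, Nat.mod_eq_of_lt (by omega)]
  rw [this, card_range]

lemma arc_ineq {ι : Type} (h l : ℕ) (hl : l ≤ h) (Q : Finset ι) (b : ι → ZMod (2*h+1)) :
    ((l : ℝ)^2 * (Q.card:ℝ)^2) / (2*h+1)
      ≤ ∑ x ∈ Q, ∑ y ∈ Q, ((l - cd (b x) (b y) : ℕ) : ℝ) := by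
  classical
  set cnt : ZMod (2*h+1) → ℝ := fun t => ∑ x ∈ Q, if (b x - t).val < l then (1:ℝ) else 0 with hcnt
  have h1 : ∑ t, cnt t = l * Q.card := by
    simp only [hcnt]
    rw [sum_comm]
    have : ∀ x ∈ Q, ∑ t, (if (b x - t).val < l then (1:ℝ) else 0) = l := by
      intro x _
      rw [sum_ite, sum_const_zero, add_zero, sum_const, nsmul_eq_mul, mul_one, arc_len h l hl]
    rw [sum_congr rfl this, sum_const, nsmul_eq_mul]
    ring
  have h2 : ∑ t, cnt t ^ 2 ≤ ∑ x ∈ Q, ∑ y ∈ Q, ((l - cd (b x) (b y) : ℕ) : ℝ) := by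
    have h3 : ∀ t, cnt t ^ 2 = ∑ x ∈ Q, ∑ y ∈ Q,
        if ((b x - t).val < l ∧ (b y - t).val < l) then (1:ℝ) else 0 := by
      intro t
      simp only [hcnt]
      rw [sq, sum_mul_sum]
      apply sum_congr rfl
      intro x _
      apply sum_congr rfl
      intro y _
      by_cases hx : (b x - t).val < l <;> by_cases hy : (b y - t).val < l <;> simp [hx, hy]
    rw [sum_congr rfl (fun t _ => h3 t), sum_comm]
    apply sum_le_sum
    intro x _
    rw [sum_comm]
    apply sum_le_sum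
    intro y _
    rw [sum_ite, sum_const_zero, add_zero, sum_const, nsmul_eq_mul, mul_one]
    exact_mod_cast arc_count h l hl (b x) (b y)
  have h4 : (∑ t, cnt t)^2 ≤ (2*h+1) * ∑ t, cnt t ^ 2 := by
    have := sq_sum_le_card_mul_sum_sq (s := (univ : Finset (ZMod (2*h+1)))) (f := cnt)
    rw [card_univ, ZMod.card] at this
    push_cast at this
    exact this
  rw [h1] at h4
  rw [div_le_iff₀ (by positivity)]
  nlinarith [h4, h2]

/-- `g h d = 1/(d+1) + ... + 1/h` -/
noncomputable def g (h d : ℕ) : ℝ := ∑ j ∈ Ico d h, 1/((j:ℝ)+1)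

lemma g_zero_of_le (h d : ℕ) (hd : h ≤ d) : g h d = 0 := by
  unfold g; rw [Ico_eq_empty_of_le hd]; simp

lemma g_nonneg (h d : ℕ) : 0 ≤ g h d := by
  unfold g; apply sum_nonneg; intro j _; positivity

lemma g_succ (h d : ℕ) (hd : d ≤ h) : g (h+1) d = g h d + 1/((h:ℝ)+1) := by
  unfold g; rw [sum_Ico_succ_top hd]

lemma g_decomp (h d : ℕ) (hh : 1 ≤ h) :
    g h d = ∑ l ∈ Ico 1 h, ((l - d : ℕ) : ℝ) / ((l:ℝ) * (l+1)) + ((h - d : ℕ) : ℝ) / h := by
  induction h, hh using Nat.le_induction with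
  | base =>
    rcases Nat.eq_zero_or_pos d with rfl | hd
    · simp [g]
    · rw [g_zero_of_le 1 d hd]
      have : 1 - d = 0 := by omega
      simp [this]
  | succ h hh ih =>
    by_cases hd : d ≤ h
    · rw [g_succ h d hd, ih, sum_Ico_succ_top hh, Nat.cast_sub hd,
        Nat.cast_sub (by omega : d ≤ h+1)]
      have hpos : (0:ℝ) < h := by exact_mod_cast hh
      push_cast
      field_simp
      ring
    · rw [g_zero_of_le (h+1) d (by omega)]
      have h1 : h + 1 - d = 0 := by omega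
      rw [h1]
      have h2 : ∀ l ∈ Ico 1 (h+1), ((l - d : ℕ) : ℝ) / ((l:ℝ) * (l+1)) = 0 := by
        intro l hl
        rw [mem_Ico] at hl
        have : l - d = 0 := by omega
        simp [this]
      rw [sum_congr rfl h2]
      simp

/-- the total weight -/
noncomputable def G (h : ℕ) : ℝ := ∑ l ∈ Ico 1 h, (l:ℝ)/((l:ℝ)+1) + h

lemma psd_ineq {ι : Type} (h : ℕ) (hh : 1 ≤ h) (Q : Finset ι) (b : ι → ZMod (2*h+1)) :
    (Q.card:ℝ)^2 * (G h / (2*h+1)) ≤ ∑ x ∈ Q, ∑ y ∈ Q, g h (cd (b x) (b y)) := by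
  have hpos : (0:ℝ) < h := by exact_mod_cast hh
  have h1 : ∑ x ∈ Q, ∑ y ∈ Q, g h (cd (b x) (b y))
      = ∑ l ∈ Ico 1 h, (1/((l:ℝ)*(l+1))) * (∑ x ∈ Q, ∑ y ∈ Q, ((l - cd (b x) (b y) : ℕ) : ℝ))
        + (1/(h:ℝ)) * (∑ x ∈ Q, ∑ y ∈ Q, ((h - cd (b x) (b y) : ℕ) : ℝ)) := by
    have : ∀ x y, g h (cd (b x) (b y)) = ∑ l ∈ Ico 1 h, (1/((l:ℝ)*(l+1))) *
        ((l - cd (b x) (b y) : ℕ) : ℝ) + (1/(h:ℝ)) * ((h - cd (b x) (b y) : ℕ) : ℝ) := by
      intro x y
      rw [g_decomp h _ hh]
      congr 1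
      · apply sum_congr rfl
        intro l _
        ring
      · ring
    simp only [this]
    simp only [sum_add_distrib, mul_sum]
    congr 1
    rw [sum_comm (s := Ico 1 h)]
    apply sum_congr rfl
    intro x _
    rw [sum_comm]
  have h2 : (Q.card:ℝ)^2 * (G h / (2*h+1))
      = ∑ l ∈ Ico 1 h, (1/((l:ℝ)*(l+1))) * (((l : ℝ)^2 * (Q.card:ℝ)^2) / (2*h+1))
        + (1/(h:ℝ)) * (((h : ℝ)^2 * (Q.card:ℝ)^2) / (2*h+1)) := by
    unfold G
    rw [add_div, mul_add, sum_div, mul_sum]
    congr 1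
    · apply sum_congr rfl
      intro l hl
      rw [mem_Ico] at hl
      have : (0:ℝ) < l := by exact_mod_cast hl.1
      field_simp
    · field_simp
  rw [h1, h2]
  apply add_le_add
  · apply sum_le_sum
    intro l hl
    rw [mem_Ico] at hl
    apply mul_le_mul_of_nonneg_left (arc_ineq h l (by omega) Q b) (by positivity)
  · apply mul_le_mul_of_nonneg_left (arc_ineq h h le_rfl Q b) (by positivity)

lemma g_le_log (h d : ℕ) (hd : d ≤ h) :
    g h d ≤ Real.log ((2*(h:ℝ)+1)/(2*(d:ℝ)+1)) := by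
  induction h, hd using Nat.le_induction with
  | base =>
    rw [g_zero_of_le d d le_rfl, div_self (by positivity)]
    simp
  | succ h hd ih =>
    rw [g_succ h d hd]
    have h1 : Real.log ((2*((h+1:ℕ):ℝ)+1)/(2*(d:ℝ)+1))
        = Real.log ((2*(h:ℝ)+1)/(2*(d:ℝ)+1)) + Real.log (1 + 2/(2*(h:ℝ)+1)) := by
      rw [← Real.log_mul (by positivity) (by positivity)]
      congr 1
      push_cast
      field_simp
      ring
    rw [h1]
    have h2 : 1/((h:ℝ)+1) ≤ Real.log (1 + 2/(2*(h:ℝ)+1)) := by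
      have := Real.le_log_one_add_of_nonneg (x := 2/(2*(h:ℝ)+1)) (by positivity)
      refine le_trans (le_of_eq ?_) this
      field_simp
      ring
    linarith

lemma G_ge (h : ℕ) (hh : 1 ≤ h) : 2*(h:ℝ) - 1 - Real.log h ≤ G h := by
  have h1 : G h = 2*(h:ℝ) - ∑ l ∈ range h, 1/((l:ℝ)+1) := by
    unfold G
    have h2 : ∑ l ∈ Ico 1 h, (l:ℝ)/((l:ℝ)+1) = ∑ l ∈ range h, (l:ℝ)/((l:ℝ)+1) := by
      rw [range_eq_Ico, sum_eq_sum_Ico_succ_bot (a := 0) (b := h) (by omega)]
      simp
    rw [h2]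
    have h3 : ∀ l ∈ range h, (l:ℝ)/((l:ℝ)+1) = 1 - 1/((l:ℝ)+1) := by
      intro l _
      field_simp
      ring
    rw [sum_congr rfl h3, sum_sub_distrib]
    simp
    ring
  rw [h1]
  have h4 : ∑ l ∈ range h, 1/((l:ℝ)+1) = ((harmonic h : ℚ) : ℝ) := by
    rw [harmonic]
    push_cast
    apply sum_congr rfl
    intro l _
    rw [one_div]
  rw [h4]
  have := harmonic_le_one_add_log h
  linarith

end Pool.Agent.H230R2.RM
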