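import Pool.Agent.H230R2.RM.Main

set_option autoImplicit false

namespace Pool.Agent.H230R2.RM

open Finset Filter

lemma exists_h (δ : ℝ) (hδ : 0 < δ) : ∃ h : ℕ, 1 ≤ h ∧ 1 - δ ≤ G h / (2*(h:ℝ)+1) := by
  refine ⟨⌈1/δ^2⌉₊ + 1, by omega, ?_⟩
  set h : ℕ := ⌈1/δ^2⌉₊ + 1 with hh
  have h1 : 1/δ^2 ≤ (h:ℝ) := by
    have := Nat.le_ceil (1/δ^2)
    rw [hh]; push_cast; linarith
  have hpos : (0:ℝ) < h := by rw [hh]; push_cast; positivity
  have hs : 0 < √(h:ℝ) := Real.sqrt_pos.mpr hpos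
  have hsq : √(h:ℝ) * √(h:ℝ) = h := Real.mul_self_sqrt hpos.le
  have h2 : 1 ≤ δ * √(h:ℝ) := by
    have h3 : 1/δ ≤ √(h:ℝ) := by
      apply Real.le_sqrt_of_sq_le
      rw [div_pow, one_pow]; exact h1
    rw [div_le_iff₀ hδ] at h3
    linarith
  have h4 : Real.log h ≤ 2*√(h:ℝ) - 2 := by
    have h5 : Real.log h = 2 * Real.log (√(h:ℝ)) := by
      rw [← Real.log_rpow hs]
      congr 1
      rw [Real.rpow_two, Real.sq_sqrt hpos.le]
    rw [h5]
    have := Real.log_le_sub_one_of_pos hs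
    linarith
  have h6 := G_ge h (by omega)
  rw [le_div_iff₀ (by positivity)]
  nlinarith

lemma card_edge_ge (N : ℕ) (hN : 3 ≤ N) : (N:ℝ) ≤ (Fintype.card (Edge N) : ℝ) := by
  have := card_edge N
  have h3 : (3:ℝ) ≤ N := by exact_mod_cast hN
  nlinarith

lemma ev_log_sq (η : ℝ) (hη : 0 < η) : ∀ᶠ N : ℕ in atTop, (Real.log N)^2 ≤ η * N := by
  have h1 : (fun x : ℝ => Real.log x ^ 2) =o[atTop] id := Real.isLittleO_pow_log_id_atTop
  have h2 := h1.bound hη
  have h3 := tendsto_natCast_atTop_atTop (R := ℝ) |>.eventually h2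
  filter_upwards [h3] with N hN
  simp only [id, Real.norm_eq_abs] at hN
  rw [abs_of_nonneg (sq_nonneg _), abs_of_nonneg (Nat.cast_nonneg N)] at hN
  exact hN

lemma ev_ge (C : ℝ) : ∀ᶠ N : ℕ in atTop, C ≤ N :=
  tendsto_natCast_atTop_atTop.eventually_ge_atTop C

lemma ev_log_ge (C : ℝ) : ∀ᶠ N : ℕ in atTop, C ≤ Real.log N :=
  (Real.tendsto_log_atTop.comp tendsto_natCast_atTop_atTop).eventually_ge_atTop C

theorem clique_bound (ε : ℝ) (hε : 0 < ε) : ∃ c : ℝ, 0 < c ∧ ∀ᶠ N : ℕ in atTop, ∀ q : ℕ,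
    (2 + ε) * Real.log N ≤ q → pN N q ≤ Real.exp (-(c * (Real.log N)^2)) := by
  refine ⟨ε/8, by positivity, ?_⟩
  set δ : ℝ := ε/(8+4*ε) with hδ
  have hδ0 : 0 < δ := by positivity
  have hδ1 : δ < 1 := by
    rw [hδ, div_lt_one (by positivity)]; linarith
  have hδeq : (2+ε) * δ = ε/4 := by
    rw [hδ]; field_simp; ring
  obtain ⟨h, hh, hG⟩ := exists_h δ hδ0
  set K : ℝ := 2*(h:ℝ)+1 with hK
  have hK0 : 0 < K := by positivity
  have hhpos : (0:ℝ) < h := by exact_mod_cast hh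
  set γ : ℝ := δ/(3*K) with hγ
  have hγ0 : 0 < γ := by positivity
  have hγK : 3*γ*K = δ := by rw [hγ]; field_simp
  have hγ1 : γ < 1/K := by
    rw [hγ, div_lt_div_iff₀ (by positivity) hK0]
    nlinarith
  have hmin : 0 < 2/K - 2*γ := by
    have : 2/K = 2*(1/K) := by ring
    rw [this]; linarith
  -- constants of the second potential
  set κ : ℕ → ℝ := fun i => (1 - fr h i - γ)/(1 - fr h i - 2*γ) - 1
          - Real.log ((1 - fr h i - γ)/(1 - fr h i - 2*γ)) with hκ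
  have hapos : ∀ i ∈ range h, 0 < 1 - fr h i - 2*γ := by
    intro i hi
    have := fr_ub h i (mem_range.mp hi)
    linarith
  have hκpos : ∀ i ∈ range h, 0 < κ i := by
    intro i hi
    apply rate_pos
    rw [one_lt_div (hapos i hi)]
    linarith
  have hphi : ∀ᶠ N : ℕ in atTop, ∀ i ∈ range h,
      (ε/8) * (Real.log N)^2 + Real.log (2*h)
        ≤ κ i * ((1 - fr h i - 2*γ)^2 * N - 1) := by
    rw [Filter.eventually_all_finset]
    intro i hi
    have hA : 0 < κ i * (1 - fr h i - 2*γ)^2 :=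
      mul_pos (hκpos i hi) (pow_pos (hapos i hi) 2)
    filter_upwards [ev_log_sq ((κ i * (1 - fr h i - 2*γ)^2/2)/(ε/8)) (by positivity),
      ev_ge ((κ i + Real.log (2*h))/(κ i * (1 - fr h i - 2*γ)^2/2))] with N h1 h2
    have h3 : (ε/8) * (Real.log N)^2 ≤ (κ i * (1 - fr h i - 2*γ)^2/2) * N := by
      have := mul_le_mul_of_nonneg_left h1 (by positivity : 0 ≤ ε/8)
      refine le_trans this (le_of_eq ?_)
      field_simp
    have h4 : κ i + Real.log (2*h) ≤ (κ i * (1 - fr h i - 2*γ)^2/2) * N := by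
      rw [div_le_iff₀ (by positivity)] at h2
      linarith
    linarith
  filter_upwards [hphi, ev_ge 3, ev_ge K, ev_ge ((2*(h:ℝ)+2)/γ + 1),
    ev_ge (1/((2/K - 2*γ) * γ)), ev_log_ge (4 * g h 0/ε), ev_log_ge 1,
    ev_log_ge (8 * Real.log 2/ε)]
    with N hphi h3 hKN hc2 hc3 hg0 hlog1 hlog2
  intro q hq
  have h3' : 3 ≤ N := by exact_mod_cast h3
  have hNS := card_edge_ge N h3'
  have hNpos : (0:ℝ) < N := by linarith
  have hc2' : 2*(h:ℝ)+2 ≤ γ * ((N:ℝ)-1) := by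
    have : (2*(h:ℝ)+2)/γ ≤ (N:ℝ) - 1 := by linarith
    rw [div_le_iff₀ hγ0] at this
    linarith
  have hfb := finite_bound N q h hh γ hγ0 hγ1 (le_trans hKN hNS) hc2' (le_trans hc3 hNS)
  refine le_trans hfb ?_
  set L := Real.log N with hL
  have hLpos : 0 < L := by linarith
  have hq0 : (0:ℝ) ≤ q := Nat.cast_nonneg q
  -- first part
  have hA : (N:ℝ)^q * Real.exp (-((1/2) * ((q:ℝ)^2 * (G h/(2*h+1)) - q * g h 0))
        + 3*γ*(2*h+1) * ((q:ℝ)^2/2)) ≤ (1/2) * Real.exp (-(ε/8 * L^2)) := by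
    have h1 : (N:ℝ)^q = Real.exp (q * L) := by
      rw [hL, mul_comm, ← Real.rpow_natCast, Real.rpow_def_of_pos hNpos]
    rw [h1, ← Real.exp_add]
    have h2 : (1/2:ℝ) * Real.exp (-(ε/8 * L^2)) = Real.exp (-(Real.log 2) + -(ε/8 * L^2)) := by
      rw [Real.exp_add, Real.exp_neg (Real.log 2), Real.exp_log (by norm_num)]; norm_num
    rw [h2]
    apply Real.exp_le_exp.mpr
    have h4 : 3*γ*(2*(h:ℝ)+1) = δ := hγK
    rw [h4]
    have h5 : (q:ℝ)^2 * (1-δ) ≤ (q:ℝ)^2 * (G h/(2*h+1)) :=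
      mul_le_mul_of_nonneg_left hG (sq_nonneg _)
    -- exponent ≤ q (L + g0/2 - q (1-2δ)/2)
    have h6 : (1 + ε/4) * L ≤ (1/2) * q * (1 - 2*δ) := by
      have h7 : 0 ≤ 1 - 2*δ := by
        have : (2+ε) * δ = ε/4 := hδeq
        nlinarith
      have h8 := mul_le_mul_of_nonneg_right hq h7
      have h9 : (2+ε) * L * (1 - 2*δ) = 2 * ((1 + ε/4) * L) := by
        have : (2+ε) * L * (1 - 2*δ) = (2+ε)*L - 2*L*((2+ε)*δ) := by ring
        rw [this, hδeq]; ring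
      linarith
    have h10 : g h 0 / 2 ≤ ε/8 * L := by
      rw [div_le_iff₀ hε] at hg0
      linarith
    have h11 : (q:ℝ) * L + (-((1/2) * ((q:ℝ)^2 * (G h/(2*h+1)) - q * g h 0))
        + δ * ((q:ℝ)^2/2)) ≤ q * (L + g h 0/2 - (1/2) * q * (1 - 2*δ)) := by
      nlinarith
    have h12 : q * (L + g h 0/2 - (1/2) * q * (1 - 2*δ)) ≤ q * (-(ε/8 * L)) := by
      apply mul_le_mul_of_nonneg_left _ hq0
      linarith
    have h13 : q * (-(ε/8 * L)) ≤ -(ε/4 * L^2) := by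
      have h14 : 2 * L ≤ q := by nlinarith
      have h15 : (2*L) * (ε/8 * L) ≤ q * (ε/8*L) :=
        mul_le_mul_of_nonneg_right h14 (by positivity)
      nlinarith
    have h16 : Real.log 2 ≤ ε/8 * L^2 := by
      rw [div_le_iff₀ hε] at hlog2
      have h17 : Real.log 2 ≤ ε/8 * L := by linarith
      have h18 : ε/8 * L ≤ ε/8 * L^2 := by
        apply mul_le_mul_of_nonneg_left _ (by positivity)
        nlinarith
      linarith
    linarith
  -- second part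
  have hB : ∑ i ∈ range h, Real.exp (-(((1 - fr h i - γ)/(1 - fr h i - 2*γ) - 1
          - Real.log ((1 - fr h i - γ)/(1 - fr h i - 2*γ)))
          * (⌊(1 - fr h i - 2*γ)^2 * (Fintype.card (Edge N) : ℝ)⌋₊ : ℝ)))
      ≤ (1/2) * Real.exp (-(ε/8 * L^2)) := by
    have h1 : ∀ i ∈ range h, Real.exp (-(((1 - fr h i - γ)/(1 - fr h i - 2*γ) - 1
          - Real.log ((1 - fr h i - γ)/(1 - fr h i - 2*γ)))
          * (⌊(1 - fr h i - 2*γ)^2 * (Fintype.card (Edge N) : ℝ)⌋₊ : ℝ)))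
        ≤ Real.exp (-(ε/8 * L^2)) * (1/(2*h)) := by
      intro i hi
      have h2 : (1/(2*(h:ℝ))) = Real.exp (-(Real.log (2*h))) := by
        rw [Real.exp_neg, Real.exp_log (by positivity), one_div]
      rw [h2, ← Real.exp_add]
      apply Real.exp_le_exp.mpr
      have h4 := hphi i hi
      have h5 : (1 - fr h i - 2*γ)^2 * (N:ℝ) - 1
          ≤ (⌊(1 - fr h i - 2*γ)^2 * (Fintype.card (Edge N) : ℝ)⌋₊ : ℝ) := by
        have h6 := Nat.lt_floor_add_one ((1 - fr h i - 2*γ)^2 * (Fintype.card (Edge N) : ℝ))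
        have h7 : (1 - fr h i - 2*γ)^2 * (N:ℝ)
            ≤ (1 - fr h i - 2*γ)^2 * (Fintype.card (Edge N) : ℝ) :=
          mul_le_mul_of_nonneg_left hNS (sq_nonneg _)
        linarith
      have h8 := mul_le_mul_of_nonneg_left h5 (hκpos i hi).le
      simp only [hκ] at h4 h8
      linarith
    refine le_trans (sum_le_sum h1) (le_of_eq ?_)
    rw [sum_const, card_range, nsmul_eq_mul]
    field_simp
  linarith

end Pool.Agent.H230R2.RM
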