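import Pool.Agent.H230R2.RM.Super
import Pool.Agent.H230R2.RM.Arcs

set_option autoImplicit false

namespace Pool.Agent.H230R2.RM

open Finset

lemma w_eq (D : ℕ) (x0 : ℝ) (m : ℕ) : w D x0 m = 1 - (1 - x0) * (1 - w D 0 m) := by
  induction m using Nat.strong_induction_on with
  | _ m ih =>
    by_cases hm : m ≤ D
    · rw [w_const D x0 m hm, w_const D 0 m hm]; ring
    · have hD : D < m := by omega
      rw [w_step D x0 m hD, w_step D 0 m hD, ih (m-2) (by omega)]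
      ring

lemma w_sq (d m : ℕ) (h : d + 1 ≤ m) : (d:ℝ) ≤ (1 - w (d+1) 0 m)^2 * m := by
  induction m using Nat.strong_induction_on with
  | _ m ih =>
    have hm0 : (0:ℝ) < m := by exact_mod_cast (by omega : 0 < m)
    by_cases hm : m ≤ d + 1
    · have : m = d + 1 := by omega
      subst this
      rw [w_const _ _ _ le_rfl]
      push_cast
      nlinarith [(Nat.cast_nonneg d : (0:ℝ) ≤ d)]
    · have hD : d + 1 < m := by omega
      have hstep : 1 - w (d+1) 0 m = (1 - 1/(m:ℝ)) * (1 - w (d+1) 0 (m-2)) := by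
        rw [w_step _ _ _ hD]; ring
      rw [hstep]
      have hsq : (m:ℝ) - 2 ≤ (1 - 1/(m:ℝ))^2 * m := by
        have : (1 - 1/(m:ℝ))^2 * m = m - 2 + 1/m := by
          field_simp
          ring
        rw [this]
        have : 0 < 1/(m:ℝ) := by positivity
        linarith
      have hc : (((m - 2 : ℕ)) : ℝ) = (m:ℝ) - 2 := by
        rw [Nat.cast_sub (by omega)]; norm_num
      by_cases h2 : d + 1 ≤ m - 2
      · have := ih (m-2) (by omega) h2
        rw [hc] at this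
        have h3 : 0 ≤ (1 - w (d+1) 0 (m-2))^2 := sq_nonneg _
        calc (d:ℝ) ≤ (1 - w (d+1) 0 (m-2))^2 * ((m:ℝ) - 2) := this
          _ ≤ (1 - w (d+1) 0 (m-2))^2 * ((1 - 1/(m:ℝ))^2 * m) :=
              mul_le_mul_of_nonneg_left hsq h3
          _ = _ := by ring
      · rw [w_const _ _ _ (by omega : m - 2 ≤ d + 1)]
        have : (m:ℝ) - 2 = d := by
          rw [← hc]; congr 1; omega
        calc (d:ℝ) = (m:ℝ) - 2 := this.symm
          _ ≤ (1 - 1/(m:ℝ))^2 * m := hsq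
          _ = _ := by ring

lemma w_le_lin (d m : ℕ) (h : d + 1 ≤ m) (a : ℝ) (ha : 0 < a) (hd : (d:ℝ) ≤ a^2 * m) :
    (d:ℝ)/(a*m) ≤ 1 - w (d+1) 0 m := by
  have hm0 : (0:ℝ) < m := by exact_mod_cast (by omega : 0 < m)
  have h1 := w_sq d m h
  have h0 : 0 ≤ 1 - w (d+1) 0 m := by
    have := (w_mem (d+1) 0 le_rfl zero_le_one m).2
    linarith
  apply le_of_sq_le_sq _ h0
  have h2 : ((d:ℝ)/(a*m))^2 ≤ d/m := by
    rw [div_pow, div_le_div_iff₀ (by positivity) hm0]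
    have h3 : (0:ℝ) ≤ d := Nat.cast_nonneg d
    have : (d:ℝ)^2 * m ≤ d * (a^2 * m) * m := by
      have := mul_le_mul_of_nonneg_left hd h3
      nlinarith
    nlinarith
  refine le_trans h2 ?_
  rw [div_le_iff₀ hm0]
  exact h1

/-- initial value of the first weight -/
lemma w_init (m : ℕ) (a : ℝ) (ha : 0 < a) (hm : ⌊a^2 * m⌋₊ + 1 ≤ m) :
    w (⌊a^2 * m⌋₊ + 1) 0 m ≤ 1 - a + 1/(a*m) := by
  have hm0 : (0:ℝ) < m := by exact_mod_cast (by omega : 0 < m)
  have h1 := w_le_lin ⌊a^2 * m⌋₊ m hm a ha (Nat.floor_le (by positivity))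
  have h2 : a^2 * m - 1 ≤ (⌊a^2 * m⌋₊ : ℝ) := by
    have := Nat.lt_floor_add_one (a^2 * m); linarith
  have h3 : a - 1/(a*m) ≤ (⌊a^2 * m⌋₊ : ℝ)/(a*m) := by
    rw [le_div_iff₀ (by positivity)]
    refine le_trans (le_of_eq ?_) h2
    field_simp
  linarith

/-- initial value of the second weight -/
lemma phi_init (m R : ℕ) (a r : ℝ) (ha : 0 < a) (har : a < r)
    (hm : ⌊a^2 * m⌋₊ + 1 ≤ m) (hR : r * m ≤ R) :
    (w (⌊a^2 * m⌋₊ + 1) (a/r) m) ^ R / (a/r) ^ ⌊a^2 * m⌋₊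
      ≤ Real.exp (-((r/a - 1 - Real.log (r/a)) * (⌊a^2 * m⌋₊ : ℝ))) := by
  have hm0 : (0:ℝ) < m := by exact_mod_cast (by omega : 0 < m)
  have hr : 0 < r := lt_trans ha har
  have hl0 : 0 < a/r := div_pos ha hr
  have hl1 : a/r < 1 := by rw [div_lt_one hr]; exact har
  set d := ⌊a^2 * m⌋₊ with hd
  have h1 := w_le_lin d m hm a ha (Nat.floor_le (by positivity))
  have h2 : w (d+1) (a/r) m ≤ Real.exp (-((1 - a/r) * (d/(a*m)))) := by
    rw [w_eq]
    have h3 := Real.add_one_le_exp (-((1 - a/r) * ((d:ℝ)/(a*m))))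
    have h4 : (1 - a/r) * ((d:ℝ)/(a*m)) ≤ (1 - a/r) * (1 - w (d+1) 0 m) :=
      mul_le_mul_of_nonneg_left h1 (by linarith)
    linarith
  have h5 : (w (d+1) (a/r) m) ^ R ≤ Real.exp (-((1 - a/r) * (r/a) * d)) := by
    calc (w (d+1) (a/r) m) ^ R ≤ (Real.exp (-((1 - a/r) * (d/(a*m))))) ^ R :=
          pow_le_pow_left₀ (w_mem _ _ hl0.le hl1.le _).1 h2 R
      _ = Real.exp ((R:ℝ) * (-((1 - a/r) * (d/(a*m))))) := by rw [← Real.exp_nat_mul]
      _ ≤ Real.exp (-((1 - a/r) * (r/a) * d)) := by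
          apply Real.exp_le_exp.mpr
          have h6 : 0 ≤ (1 - a/r) * ((d:ℝ)/(a*m)) :=
            mul_nonneg (by linarith) (by positivity)
          have h7 : (r * m) * ((1 - a/r) * ((d:ℝ)/(a*m)))
              ≤ R * ((1 - a/r) * ((d:ℝ)/(a*m))) := mul_le_mul_of_nonneg_right hR h6
          have h8 : (r * m) * ((1 - a/r) * ((d:ℝ)/(a*m))) = (1 - a/r) * (r/a) * d := by
            field_simp
          linarith
  have h9 : (a/r)^d = Real.exp (-(Real.log (r/a) * d)) := by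
    rw [← Real.exp_log (pow_pos hl0 d), Real.log_pow]
    congr 1
    rw [Real.log_div ha.ne' hr.ne', Real.log_div hr.ne' ha.ne']
    ring
  rw [h9, div_le_iff₀ (Real.exp_pos _), ← Real.exp_add]
  refine le_trans h5 (Real.exp_le_exp.mpr (le_of_eq ?_))
  field_simp
  ring

lemma rate_pos (x : ℝ) (hx : 1 < x) : 0 < x - 1 - Real.log x := by
  have := Real.log_lt_sub_one_of_pos (by linarith) hx.ne'
  linarith

end Pool.Agent.H230R2.RM
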