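import Pool.Agent.H230R2.RM.Defs
import Pool.Agent.H230R2.RM.Arcs

set_option autoImplicit false

namespace Pool.Agent.H230R2.RM

open Finset

/-- the pairs inside a set of vertices -/
def pairs {N : ℕ} (s : Finset (Fin N)) : Finset (Edge N) :=
  univ.filter (fun e => e.1.1 ∈ s ∧ e.1.2 ∈ s)

lemma sum_pairs {N : ℕ} (s : Finset (Fin N)) (F : Fin N → Fin N → ℝ)
    (hF : ∀ x y, F x y = F y x) :
    ∑ x ∈ s, ∑ y ∈ s, F x y = 2 * ∑ e ∈ pairs s, F e.1.1 e.1.2 + ∑ x ∈ s, F x x := by
  have hA : ∑ e ∈ pairs s, F e.1.1 e.1.2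
      = ∑ p ∈ (s ×ˢ s).filter (fun p => p.1 < p.2), F p.1 p.2 := by
    apply sum_bij (fun (e : Edge N) _ => e.1)
    · intro e he
      rw [pairs, mem_filter] at he
      rw [mem_filter, mem_product]
      exact ⟨he.2, e.2⟩
    · intro e _ f _ h
      exact Subtype.ext h
    · intro p hp
      rw [mem_filter, mem_product] at hp
      exact ⟨⟨p, hp.2⟩, by rw [pairs, mem_filter]; exact ⟨mem_univ _, hp.1⟩, rfl⟩
    · intro e _; rfl
  have hB : ∑ p ∈ (s ×ˢ s).filter (fun p => p.2 < p.1), F p.1 p.2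
      = ∑ p ∈ (s ×ˢ s).filter (fun p => p.1 < p.2), F p.1 p.2 := by
    apply sum_bij (fun (p : Fin N × Fin N) _ => (p.2, p.1))
    · intro p hp
      rw [mem_filter, mem_product] at hp ⊢
      exact ⟨⟨hp.1.2, hp.1.1⟩, hp.2⟩
    · intro p _ r _ h
      rw [Prod.mk.injEq] at h
      exact Prod.ext h.2 h.1
    · intro p hp
      rw [mem_filter, mem_product] at hp
      refine ⟨(p.2, p.1), ?_, rfl⟩
      rw [mem_filter, mem_product]
      exact ⟨⟨hp.1.2, hp.1.1⟩, hp.2⟩
    · intro p _; exact hF _ _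
  have hC : ∑ p ∈ (s ×ˢ s).filter (fun p => p.1 = p.2), F p.1 p.2 = ∑ x ∈ s, F x x := by
    symm
    apply sum_bij (fun (x : Fin N) _ => (x, x))
    · intro x hx
      rw [mem_filter, mem_product]
      exact ⟨⟨hx, hx⟩, rfl⟩
    · intro x _ y _ h
      rw [Prod.mk.injEq] at h
      exact h.1
    · intro p hp
      rw [mem_filter, mem_product] at hp
      exact ⟨p.1, hp.1.1, by rw [Prod.ext_iff]; exact ⟨rfl, hp.2⟩⟩
    · intro x _; rfl
  rw [← sum_product']
  rw [← sum_filter_add_sum_filter_not (s ×ˢ s) (fun p => p.1 < p.2)]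
  rw [← sum_filter_add_sum_filter_not ((s ×ˢ s).filter (fun p => ¬ p.1 < p.2))
    (fun p => p.2 < p.1)]
  rw [filter_filter, filter_filter]
  have e1 : (s ×ˢ s).filter (fun p => ¬ p.1 < p.2 ∧ p.2 < p.1)
      = (s ×ˢ s).filter (fun p => p.2 < p.1) := by
    apply filter_congr
    intro p _
    constructor
    · exact fun h => h.2
    · exact fun h => ⟨not_lt.mpr h.le, h⟩
  have e2 : (s ×ˢ s).filter (fun p => ¬ p.1 < p.2 ∧ ¬ p.2 < p.1)
      = (s ×ˢ s).filter (fun p => p.1 = p.2) := by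
    apply filter_congr
    intro p _
    constructor
    · rintro ⟨h1, h2⟩
      exact le_antisymm (not_lt.mp h2) (not_lt.mp h1)
    · intro h
      rw [h]
      exact ⟨lt_irrefl _, lt_irrefl _⟩
  rw [e1, e2, hB, hC, hA]
  ring

lemma card_pairs {N : ℕ} (s : Finset (Fin N)) :
    ((s.card : ℝ))^2 = 2 * ((pairs s).card : ℝ) + s.card := by
  have := sum_pairs s (fun _ _ => (1:ℝ)) (fun _ _ => rfl)
  simp only [sum_const, nsmul_eq_mul, mul_one] at this
  rw [sq]; exact this

lemma card_edge (N : ℕ) : (N:ℝ)^2 = 2 * (Fintype.card (Edge N) : ℝ) + N := by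
  have := card_pairs (univ : Finset (Fin N))
  rw [card_univ, Fintype.card_fin] at this
  rw [this]
  congr 2
  rw [pairs]
  simp

/-- the class of an edge: the cyclic distance of the residues of its ends modulo `2h+1` -/
def cls (h : ℕ) {N : ℕ} (e : Edge N) : ℕ :=
  cd ((e.1.1.val : ZMod (2*h+1))) ((e.1.2.val : ZMod (2*h+1)))

lemma cd_le (h : ℕ) (u v : ZMod (2*h+1)) : cd u v ≤ h := by
  unfold cd
  by_cases h0 : v - u = 0
  · rw [h0]; simp
  · have h1 : (u - v).val = (2*h+1) - (v - u).val := by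
      rw [← neg_sub v u]
      have : NeZero (v - u) := ⟨h0⟩
      exact ZMod.val_neg_of_ne_zero (v - u)
    have h2 : (v-u).val < 2*h+1 := ZMod.val_lt _
    omega

lemma card_residue (N K : ℕ) (hK : 0 < K) (c : ZMod K) :
    (univ.filter (fun y : Fin N => ((y.val : ℕ) : ZMod K) = c)).card ≤ N / K + 1 := by
  have : NeZero K := ⟨hK.ne'⟩
  calc _ = ((univ.filter (fun y : Fin N => ((y.val : ℕ) : ZMod K) = c)).image
        (fun y => y.val / K)).card := by
        rw [card_image_of_injOn]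
        intro x hx y hy hxy
        rw [mem_coe, mem_filter] at hx hy
        have h1 : ((x.val : ℕ) : ZMod K) = ((y.val : ℕ) : ZMod K) := by rw [hx.2, hy.2]
        rw [ZMod.natCast_eq_natCast_iff'] at h1
        apply Fin.ext
        rw [← Nat.div_add_mod x.val K, ← Nat.div_add_mod y.val K, h1]
        dsimp only at hxy
        rw [hxy]
    _ ≤ (range (N/K+1)).card := by
        apply card_le_card
        intro a ha
        rw [mem_image] at ha
        obtain ⟨y, _, rfl⟩ := ha
        rw [mem_range]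
        have := Nat.div_le_div_right (c := K) y.2.le
        omega
    _ = _ := card_range _

lemma card_near (h i : ℕ) :
    (univ.filter (fun t : ZMod (2*h+1) => t.val ≤ i ∨ (-t).val ≤ i)).card ≤ 2*i+1 := by
  calc _ ≤ ((range (2*i+1)).image (fun j : ℕ => ((j : ZMod (2*h+1)) - (i : ZMod (2*h+1))))).card := by
        apply card_le_card
        intro t ht
        rw [mem_filter] at ht
        rw [mem_image]
        rcases ht.2 with h1 | h1
        · refine ⟨t.val + i, mem_range.mpr (by omega), ?_⟩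
          push_cast
          rw [ZMod.natCast_zmod_val]
          ring
        · refine ⟨i - (-t).val, mem_range.mpr (by omega), ?_⟩
          rw [Nat.cast_sub h1, ZMod.natCast_zmod_val]
          ring
    _ ≤ (range (2*i+1)).card := card_image_le
    _ = _ := card_range _

lemma card_near_vertex (h i N : ℕ) (x : Fin N) :
    (univ.filter (fun y : Fin N =>
      cd ((x.val : ZMod (2*h+1))) ((y.val : ZMod (2*h+1))) ≤ i)).card
      ≤ (2*i+1) * (N / (2*h+1) + 1) := by
  have hsub : (univ.filter (fun y : Fin N =>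
      cd ((x.val : ZMod (2*h+1))) ((y.val : ZMod (2*h+1))) ≤ i))
      ⊆ (univ.filter (fun t : ZMod (2*h+1) => t.val ≤ i ∨ (-t).val ≤ i)).biUnion
        (fun t => univ.filter (fun y : Fin N =>
          ((y.val : ℕ) : ZMod (2*h+1)) = (x.val : ZMod (2*h+1)) + t)) := by
    intro y hy
    rw [mem_filter] at hy
    rw [mem_biUnion]
    refine ⟨(y.val : ZMod (2*h+1)) - (x.val : ZMod (2*h+1)), ?_, ?_⟩
    · rw [mem_filter]
      refine ⟨mem_univ _, ?_⟩
      rw [neg_sub]
      have := hy.2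
      unfold cd at this
      exact min_le_iff.mp this
    · rw [mem_filter]
      refine ⟨mem_univ _, ?_⟩
      ring
  calc _ ≤ _ := card_le_card hsub
    _ ≤ ∑ t ∈ univ.filter (fun t : ZMod (2*h+1) => t.val ≤ i ∨ (-t).val ≤ i),
          (univ.filter (fun y : Fin N =>
          ((y.val : ℕ) : ZMod (2*h+1)) = (x.val : ZMod (2*h+1)) + t)).card := card_biUnion_le
    _ ≤ ∑ t ∈ univ.filter (fun t : ZMod (2*h+1) => t.val ≤ i ∨ (-t).val ≤ i),
          (N / (2*h+1) + 1) := sum_le_sum fun t _ => card_residue N (2*h+1) (by omega) _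
    _ ≤ _ := by
        rw [sum_const, smul_eq_mul]
        exact Nat.mul_le_mul_right _ (card_near h i)

lemma card_class (h i N : ℕ) :
    2 * ((univ.filter (fun e : Edge N => cls h e ≤ i)).card : ℝ)
      ≤ N * ((2*i+1) * ((N:ℝ) / (2*h+1) + 1)) := by
  classical
  have h1 := sum_pairs (univ : Finset (Fin N)) (fun x y =>
    if cd ((x.val : ZMod (2*h+1))) ((y.val : ZMod (2*h+1))) ≤ i then (1:ℝ) else 0)
    (fun x y => by rw [cd_comm])
  have h2 : ∑ e ∈ pairs (univ : Finset (Fin N)),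
      (if cd ((e.1.1.val : ZMod (2*h+1))) ((e.1.2.val : ZMod (2*h+1))) ≤ i then (1:ℝ) else 0)
      = ((univ.filter (fun e : Edge N => cls h e ≤ i)).card : ℝ) := by
    have : pairs (univ : Finset (Fin N)) = univ := by rw [pairs]; simp
    rw [this, sum_ite, sum_const_zero, add_zero, sum_const, nsmul_eq_mul, mul_one]
    rfl
  rw [h2] at h1
  have h3 : 0 ≤ ∑ x : Fin N,
      (if cd ((x.val : ZMod (2*h+1))) ((x.val : ZMod (2*h+1))) ≤ i then (1:ℝ) else 0) :=
    sum_nonneg fun x _ => by split_ifs <;> norm_num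
  have h4 : ∑ x : Fin N, ∑ y : Fin N,
      (if cd ((x.val : ZMod (2*h+1))) ((y.val : ZMod (2*h+1))) ≤ i then (1:ℝ) else 0)
      ≤ ∑ _x : Fin N, ((2*(i:ℝ)+1) * ((N:ℝ) / (2*h+1) + 1)) := by
    apply sum_le_sum
    intro x _
    rw [sum_ite, sum_const_zero, add_zero, sum_const, nsmul_eq_mul, mul_one]
    have h5 := card_near_vertex h i N x
    have h6 : (((2*i+1) * (N / (2*h+1) + 1) : ℕ) : ℝ)
        ≤ ((2*(i:ℝ)+1) * ((N:ℝ) / (2*h+1) + 1)) := by
      push_cast
      apply mul_le_mul_of_nonneg_left _ (by positivity)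
      have := @Nat.cast_div_le ℝ _ _ _ N (2*h+1)
      push_cast at this
      linarith
    exact le_trans (by exact_mod_cast h5) h6
  rw [sum_const, card_univ, Fintype.card_fin, nsmul_eq_mul] at h4
  linarith

end Pool.Agent.H230R2.RM
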