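import Mathlib

set_option autoImplicit false

/-!
# The random Maker against a Breaker who uses a strategy

Maker and Breaker alternately claim one unclaimed element of a finite board, Maker first, until
everything is claimed. Maker's moves are uniformly random among the unclaimed elements.
-/

namespace Pool.Agent.H230R2.RM

open Finset

/-- A strategy of Breaker on a board with positions `α`: given the history of the play (the list
of all positions claimed so far by both players, the latest first) and the nonempty set `U` of
the unclaimed positions, it picks an element of `U`. -/
def Strategy (α : Type) : Type := List α → (U : Finset α) → U.Nonempty → {e : α // e ∈ U}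

open Classical in
/-- `prob P β n h M U` is the probability that Maker's final set satisfies `P`, when it is
Maker's turn, `h` is the history, `M` is the set of the positions claimed by Maker so far, `U` is
the set of the unclaimed positions, Maker plays uniformly at random, Breaker follows `β`, and
at most `n` further moves of Maker are played. -/
noncomputable def prob {α : Type} (P : Finset α → Prop) (β : Strategy α) :
    ℕ → List α → Finset α → Finset α → ℝ
  | 0, _, M, _ => if P M then 1 else 0
  | n + 1, h, M, U =>
    if U = ∅ then (if P M then 1 else 0) else
    (∑ e ∈ U, if hne : (U.erase e).Nonempty then
        prob P β n ((β (e :: h) (U.erase e) hne).1 :: e :: h) (insert e M)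
          ((U.erase e).erase (β (e :: h) (U.erase e) hne).1)
      else prob P β n (e :: h) (insert e M) ∅) / (U.card : ℝ)

/-- The edges of the complete graph on the vertices `0, ..., N - 1`. -/
abbrev Edge (N : ℕ) : Type := {p : Fin N × Fin N // p.1 < p.2}

/-- The graph with edge set `M` contains a complete graph on `q` vertices. -/
def HasClique (N q : ℕ) (M : Finset (Edge N)) : Prop :=
  ∃ s : Finset (Fin N), s.card = q ∧ ∀ e : Edge N, e.1.1 ∈ s → e.1.2 ∈ s → e ∈ M

/-- `p_N(q)`: the least probability, over all strategies of Breaker, that the final graph of the
random Maker contains `K_q`, in the game on the edges of `K_N`. -/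
noncomputable def pN (N q : ℕ) : ℝ :=
  ⨅ β : Strategy (Edge N), prob (HasClique N q) β (Fintype.card (Edge N)) [] ∅ Finset.univ

end Pool.Agent.H230R2.RM
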