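import Mathlib

set_option autoImplicit false

/-!
# Counting cliques in a graph that is close to a kernel in the discrepancy sense
-/

namespace Pool.Agent.H230R2.RM

open Finset

variable {ι : Type}

/-- weighted count of ordered cliques -/
noncomputable def Bc (A : Finset ι) (T : ι → ι → ℝ) : ℕ → (ι → ℝ) → ℝ
  | 0, _ => 1
  | l+1, w => ∑ x ∈ A, w x * Bc A T l (fun v => w v * T x v)

/-- weighted count of ordered cliques, two kinds of vertices -/
noncomputable def Cc (A : Finset ι) (T : ι → ι → ℝ) : ℕ → ℕ → (ι → ℝ) → (ι → ℝ) → ℝ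
  | 0, l, _, w' => Bc A T l w'
  | j+1, l, w, w' => ∑ x ∈ A, w x * Cc A T j l (fun v => w v * T x v) (fun v => w' v * T x v)

lemma Cc_exp (A : Finset ι) (T : ι → ι → ℝ) (hT : ∀ x y, T x y = T y x) (j : ℕ) :
    ∀ (l : ℕ) (w w' : ι → ℝ), Cc A T j (l+1) w w'
      = ∑ x ∈ A, w' x * Cc A T j l (fun v => w v * T x v) (fun v => w' v * T x v) := by
  induction j with
  | zero => intro l w w'; simp only [Cc, Bc]
  | succ j ih =>
    intro l w w'
    rw [Cc]
    simp only [ih]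
    simp only [Cc, mul_sum]
    rw [sum_comm]
    apply sum_congr rfl
    intro x _
    apply sum_congr rfl
    intro v _
    have e1 : (fun u => w u * T v u * T x u) = (fun u => w u * T x u * T v u) := by
      funext u; ring
    have e2 : (fun u => w' u * T v u * T x u) = (fun u => w' u * T x u * T v u) := by
      funext u; ring
    rw [e1, e2, hT v x]
    ring

lemma Cc_same (A : Finset ι) (T : ι → ι → ℝ) (j : ℕ) :
    ∀ (l : ℕ) (w : ι → ℝ), Cc A T j l w w = Bc A T (j+l) w := by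
  induction j with
  | zero => intro l w; rw [Cc, Nat.zero_add]
  | succ j ih =>
    intro l w
    have : j + 1 + l = (j + l) + 1 := by ring
    rw [this, Cc, Bc]
    simp only [ih]

lemma Cc_zero (A : Finset ι) (T : ι → ι → ℝ) (j : ℕ) :
    ∀ (w w' : ι → ℝ), Cc A T j 0 w w' = Bc A T j w := by
  induction j with
  | zero => intro w w'; simp only [Cc, Bc]
  | succ j ih =>
    intro w w'
    rw [Cc, Bc]
    simp only [ih]

lemma Bc_nonneg (A : Finset ι) (T : ι → ι → ℝ) (hT0 : ∀ x y, 0 ≤ T x y) (l : ℕ) :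
    ∀ (w : ι → ℝ), (∀ x, 0 ≤ w x) → 0 ≤ Bc A T l w := by
  induction l with
  | zero => intro w _; simp [Bc]
  | succ l ih =>
    intro w hw
    rw [Bc]
    exact sum_nonneg fun x _ => mul_nonneg (hw x) (ih _ fun v => mul_nonneg (hw v) (hT0 x v))

lemma Cc_nonneg (A : Finset ι) (T : ι → ι → ℝ) (hT0 : ∀ x y, 0 ≤ T x y) (j : ℕ) :
    ∀ (l : ℕ) (w w' : ι → ℝ), (∀ x, 0 ≤ w x) → (∀ x, 0 ≤ w' x) → 0 ≤ Cc A T j l w w' := by
  induction j with
  | zero => intro l w w' _ hw'; rw [Cc]; exact Bc_nonneg A T hT0 l w' hw'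
  | succ j ih =>
    intro l w w' hw hw'
    rw [Cc]
    exact sum_nonneg fun x _ => mul_nonneg (hw x)
      (ih _ _ _ (fun v => mul_nonneg (hw v) (hT0 x v)) (fun v => mul_nonneg (hw' v) (hT0 x v)))

/-- from sets to functions with values in `[0,1]` -/
lemma bil_fun (A : Finset ι) (Θ : ι → ι → ℝ) (c2 : ℝ)
    (hΘ : ∀ X Y : Finset ι, X ⊆ A → Y ⊆ A →
      ∑ x ∈ X, ∑ y ∈ Y, Θ x y ≤ c2 * ((X.card : ℝ) + Y.card + 1))
    (φ ψ : ι → ℝ) (hφ : ∀ x, 0 ≤ φ x ∧ φ x ≤ 1) (hψ : ∀ x, 0 ≤ ψ x ∧ ψ x ≤ 1) :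
    ∑ x ∈ A, ∑ y ∈ A, Θ x y * (φ x * ψ y)
      ≤ c2 * (∑ x ∈ A, φ x + ∑ y ∈ A, ψ y + 1) := by
  classical
  have key : ∀ (a : ι → ℝ) (f : ι → ℝ), (∀ x, 0 ≤ f x ∧ f x ≤ 1) →
      ∑ x ∈ A, a x * f x ≤ ∑ x ∈ A.filter (fun x => 0 < a x), a x := by
    intro a f hf
    rw [sum_filter]
    apply sum_le_sum
    intro x _
    split_ifs with h
    · have := (hf x).2
      nlinarith
    · have := (hf x).1
      push Not at h
      nlinarith
  have step1 : ∀ Y : Finset ι, Y ⊆ A → ∑ x ∈ A, ∑ y ∈ Y, Θ x y * φ x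
      ≤ c2 * (∑ x ∈ A, φ x + Y.card + 1) := by
    intro Y hY
    have h1 := key (fun x => ∑ y ∈ Y, Θ x y - c2) φ hφ
    have h2 := hΘ (A.filter (fun x => 0 < ∑ y ∈ Y, Θ x y - c2)) Y (filter_subset _ _) hY
    have h3 : ∑ x ∈ A.filter (fun x => 0 < ∑ y ∈ Y, Θ x y - c2), (∑ y ∈ Y, Θ x y - c2)
        = ∑ x ∈ A.filter (fun x => 0 < ∑ y ∈ Y, Θ x y - c2), ∑ y ∈ Y, Θ x y
          - ((A.filter (fun x => 0 < ∑ y ∈ Y, Θ x y - c2)).card : ℝ) * c2 := by
      rw [sum_sub_distrib, sum_const, nsmul_eq_mul]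
    have h4 : ∑ x ∈ A, (∑ y ∈ Y, Θ x y - c2) * φ x
        = ∑ x ∈ A, ∑ y ∈ Y, Θ x y * φ x - c2 * ∑ x ∈ A, φ x := by
      rw [mul_sum, ← sum_sub_distrib]
      apply sum_congr rfl
      intro x _
      rw [sub_mul, sum_mul]
    rw [h4, h3] at h1
    nlinarith
  have h1 := key (fun y => ∑ x ∈ A, Θ x y * φ x - c2) ψ hψ
  have h2 := step1 (A.filter (fun y => 0 < ∑ x ∈ A, Θ x y * φ x - c2)) (filter_subset _ _)
  rw [sum_comm] at h2
  have h3 : ∑ y ∈ A.filter (fun y => 0 < ∑ x ∈ A, Θ x y * φ x - c2),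
      (∑ x ∈ A, Θ x y * φ x - c2)
      = ∑ y ∈ A.filter (fun y => 0 < ∑ x ∈ A, Θ x y * φ x - c2), ∑ x ∈ A, Θ x y * φ x
        - ((A.filter (fun y => 0 < ∑ x ∈ A, Θ x y * φ x - c2)).card : ℝ) * c2 := by
    rw [sum_sub_distrib, sum_const, nsmul_eq_mul]
  have h4 : ∑ y ∈ A, (∑ x ∈ A, Θ x y * φ x - c2) * ψ y
      = ∑ x ∈ A, ∑ y ∈ A, Θ x y * (φ x * ψ y) - c2 * ∑ y ∈ A, ψ y := by
    rw [sum_comm, mul_sum, ← sum_sub_distrib]
    apply sum_congr rfl
    intro y _
    rw [sub_mul, sum_mul]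
    congr 1
    apply sum_congr rfl
    intro x _
    ring
  rw [h4, h3] at h1
  nlinarith

lemma sum3 (A : Finset ι) (F : ι → ι → ι → ℝ) :
    ∑ x ∈ A, ∑ y ∈ A, ∑ u ∈ A, F x y u = ∑ u ∈ A, ∑ x ∈ A, ∑ y ∈ A, F x y u := by
  rw [sum_comm' (s := A) (t := fun _ => A) (t' := A) (s' := fun _ => A) (by simp)]
  have : ∀ y ∈ A, ∑ x ∈ A, ∑ u ∈ A, F x y u = ∑ u ∈ A, ∑ x ∈ A, F x y u :=
    fun y _ => sum_comm
  rw [sum_congr rfl this, sum_comm]
  apply sum_congr rfl
  intro u _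
  rw [sum_comm]

section bil

variable (A : Finset ι) (T K Θ : ι → ι → ℝ) (c2 : ℝ)

lemma bilB (_hTs : ∀ x y, T x y = T y x)
    (hT : ∀ x y, 0 ≤ T x y ∧ T x y ≤ 1) (hK : ∀ x y, 0 ≤ K x y ∧ K x y ≤ 1)
    (hΘ : ∀ φ ψ : ι → ℝ, (∀ x, 0 ≤ φ x ∧ φ x ≤ 1) → (∀ x, 0 ≤ ψ x ∧ ψ x ≤ 1) →
      ∑ x ∈ A, ∑ y ∈ A, Θ x y * (φ x * ψ y) ≤ c2 * (∑ x ∈ A, φ x + ∑ y ∈ A, ψ y + 1))
    (l : ℕ) : ∀ (w φ ψ : ι → ℝ), (∀ x, 0 ≤ w x) →
      (∀ x, 0 ≤ φ x ∧ φ x ≤ 1) → (∀ x, 0 ≤ ψ x ∧ ψ x ≤ 1) →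
      ∑ x ∈ A, ∑ y ∈ A, Θ x y * (φ x * ψ y) * Bc A T l (fun v => w v * K y v * T x v)
        ≤ c2 * (∑ x ∈ A, φ x * Bc A T l (fun v => w v * T x v)
          + ∑ y ∈ A, ψ y * Bc A T l (fun v => w v * K y v) + Bc A T l w) := by
  induction l with
  | zero =>
    intro w φ ψ _ hφ hψ
    simp only [Bc, mul_one]
    exact hΘ φ ψ hφ hψ
  | succ l ih =>
    intro w φ ψ hw hφ hψ
    have hih : ∀ u, ∑ x ∈ A, ∑ y ∈ A, Θ x y * ((φ x * T x u) * (ψ y * K y u)) *
          Bc A T l (fun v => (w v * T u v) * K y v * T x v)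
        ≤ c2 * (∑ x ∈ A, (φ x * T x u) * Bc A T l (fun v => (w v * T u v) * T x v)
          + ∑ y ∈ A, (ψ y * K y u) * Bc A T l (fun v => (w v * T u v) * K y v)
          + Bc A T l (fun v => w v * T u v)) := by
      intro u
      apply ih
      · exact fun x => mul_nonneg (hw x) (hT u x).1
      · intro x
        exact ⟨mul_nonneg (hφ x).1 (hT x u).1, mul_le_one₀ (hφ x).2 (hT x u).1 (hT x u).2⟩
      · intro x
        exact ⟨mul_nonneg (hψ x).1 (hK x u).1, mul_le_one₀ (hψ x).2 (hK x u).1 (hK x u).2⟩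
    have hL : ∑ x ∈ A, ∑ y ∈ A, Θ x y * (φ x * ψ y) * Bc A T (l+1) (fun v => w v * K y v * T x v)
        = ∑ u ∈ A, w u * ∑ x ∈ A, ∑ y ∈ A, Θ x y * ((φ x * T x u) * (ψ y * K y u)) *
          Bc A T l (fun v => (w v * T u v) * K y v * T x v) := by
      have h1 : ∀ x ∈ A, ∀ y ∈ A,
          Θ x y * (φ x * ψ y) * Bc A T (l+1) (fun v => w v * K y v * T x v)
          = ∑ u ∈ A, w u * (Θ x y * ((φ x * T x u) * (ψ y * K y u)) *
          Bc A T l (fun v => (w v * T u v) * K y v * T x v)) := by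
        intro x _ y _
        rw [Bc, mul_sum]
        apply sum_congr rfl
        intro u _
        have e : (fun v => w v * K y v * T x v * T u v)
            = (fun v => w v * T u v * K y v * T x v) := by
          funext v; ring
        rw [e]
        ring
      rw [sum_congr rfl (fun x hx => sum_congr rfl (h1 x hx)), sum3]
      apply sum_congr rfl
      intro u _
      rw [mul_sum]
      apply sum_congr rfl
      intro x _
      rw [mul_sum]
    have hR1 : ∑ x ∈ A, φ x * Bc A T (l+1) (fun v => w v * T x v)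
        = ∑ u ∈ A, w u * ∑ x ∈ A, (φ x * T x u) * Bc A T l (fun v => (w v * T u v) * T x v) := by
      simp only [Bc, mul_sum]
      rw [sum_comm]
      apply sum_congr rfl
      intro u _
      apply sum_congr rfl
      intro x _
      have e : (fun v => w v * T x v * T u v) = (fun v => w v * T u v * T x v) := by
        funext v; ring
      rw [e]; ring
    have hR2 : ∑ y ∈ A, ψ y * Bc A T (l+1) (fun v => w v * K y v)
        = ∑ u ∈ A, w u * ∑ y ∈ A, (ψ y * K y u) * Bc A T l (fun v => (w v * T u v) * K y v) := by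
      simp only [Bc, mul_sum]
      rw [sum_comm]
      apply sum_congr rfl
      intro u _
      apply sum_congr rfl
      intro x _
      have e : (fun v => w v * K x v * T u v) = (fun v => w v * T u v * K x v) := by
        funext v; ring
      rw [e]; ring
    have hR3 : Bc A T (l+1) w = ∑ u ∈ A, w u * Bc A T l (fun v => w v * T u v) := by
      rw [Bc]
    rw [hL, hR1, hR2, hR3, ← sum_add_distrib, ← sum_add_distrib, mul_sum]
    apply sum_le_sum
    intro u _
    have := mul_le_mul_of_nonneg_left (hih u) (hw u)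
    refine le_trans this (le_of_eq ?_)
    ring

lemma bilC (hTs : ∀ x y, T x y = T y x)
    (hT : ∀ x y, 0 ≤ T x y ∧ T x y ≤ 1) (hK : ∀ x y, 0 ≤ K x y ∧ K x y ≤ 1)
    (hΘ : ∀ φ ψ : ι → ℝ, (∀ x, 0 ≤ φ x ∧ φ x ≤ 1) → (∀ x, 0 ≤ ψ x ∧ ψ x ≤ 1) →
      ∑ x ∈ A, ∑ y ∈ A, Θ x y * (φ x * ψ y) ≤ c2 * (∑ x ∈ A, φ x + ∑ y ∈ A, ψ y + 1))
    (j : ℕ) : ∀ (l : ℕ) (w w' φ ψ : ι → ℝ), (∀ x, 0 ≤ w x) → (∀ x, 0 ≤ w' x) →
      (∀ x, 0 ≤ φ x ∧ φ x ≤ 1) → (∀ x, 0 ≤ ψ x ∧ ψ x ≤ 1) →
      ∑ x ∈ A, ∑ y ∈ A, Θ x y * (φ x * ψ y) *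
          Cc A T j l (fun v => w v * T y v * T x v) (fun v => w' v * K y v * T x v)
        ≤ c2 * (∑ x ∈ A, φ x * Cc A T j l (fun v => w v * T x v) (fun v => w' v * T x v)
          + ∑ y ∈ A, ψ y * Cc A T j l (fun v => w v * T y v) (fun v => w' v * K y v)
          + Cc A T j l w w') := by
  induction j with
  | zero =>
    intro l w w' φ ψ _ hw' hφ hψ
    simp only [Cc]
    exact bilB A T K Θ c2 hTs hT hK hΘ l w' φ ψ hw' hφ hψ
  | succ j ih =>
    intro l w w' φ ψ hw hw' hφ hψ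
    have hih : ∀ u, ∑ x ∈ A, ∑ y ∈ A, Θ x y * ((φ x * T x u) * (ψ y * T y u)) *
          Cc A T j l (fun v => (w v * T u v) * T y v * T x v)
            (fun v => (w' v * T u v) * K y v * T x v)
        ≤ c2 * (∑ x ∈ A, (φ x * T x u) *
            Cc A T j l (fun v => (w v * T u v) * T x v) (fun v => (w' v * T u v) * T x v)
          + ∑ y ∈ A, (ψ y * T y u) *
            Cc A T j l (fun v => (w v * T u v) * T y v) (fun v => (w' v * T u v) * K y v)
          + Cc A T j l (fun v => w v * T u v) (fun v => w' v * T u v)) := by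
      intro u
      apply ih
      · exact fun x => mul_nonneg (hw x) (hT u x).1
      · exact fun x => mul_nonneg (hw' x) (hT u x).1
      · intro x
        exact ⟨mul_nonneg (hφ x).1 (hT x u).1, mul_le_one₀ (hφ x).2 (hT x u).1 (hT x u).2⟩
      · intro x
        exact ⟨mul_nonneg (hψ x).1 (hT x u).1, mul_le_one₀ (hψ x).2 (hT x u).1 (hT x u).2⟩
    have hL : ∑ x ∈ A, ∑ y ∈ A, Θ x y * (φ x * ψ y) *
          Cc A T (j+1) l (fun v => w v * T y v * T x v) (fun v => w' v * K y v * T x v)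
        = ∑ u ∈ A, w u * ∑ x ∈ A, ∑ y ∈ A, Θ x y * ((φ x * T x u) * (ψ y * T y u)) *
          Cc A T j l (fun v => (w v * T u v) * T y v * T x v)
            (fun v => (w' v * T u v) * K y v * T x v) := by
      have h1 : ∀ x ∈ A, ∀ y ∈ A,
          Θ x y * (φ x * ψ y) *
            Cc A T (j+1) l (fun v => w v * T y v * T x v) (fun v => w' v * K y v * T x v)
          = ∑ u ∈ A, w u * (Θ x y * ((φ x * T x u) * (ψ y * T y u)) *
          Cc A T j l (fun v => (w v * T u v) * T y v * T x v)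
            (fun v => (w' v * T u v) * K y v * T x v)) := by
        intro x _ y _
        rw [Cc, mul_sum]
        apply sum_congr rfl
        intro u _
        have e : (fun v => w v * T y v * T x v * T u v)
            = (fun v => w v * T u v * T y v * T x v) := by
          funext v; ring
        have e' : (fun v => w' v * K y v * T x v * T u v)
            = (fun v => w' v * T u v * K y v * T x v) := by
          funext v; ring
        rw [e, e']
        ring
      rw [sum_congr rfl (fun x hx => sum_congr rfl (h1 x hx)), sum3]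
      apply sum_congr rfl
      intro u _
      rw [mul_sum]
      apply sum_congr rfl
      intro x _
      rw [mul_sum]
    have hR1 : ∑ x ∈ A, φ x * Cc A T (j+1) l (fun v => w v * T x v) (fun v => w' v * T x v)
        = ∑ u ∈ A, w u * ∑ x ∈ A, (φ x * T x u) *
            Cc A T j l (fun v => (w v * T u v) * T x v) (fun v => (w' v * T u v) * T x v) := by
      simp only [Cc, mul_sum]
      rw [sum_comm]
      apply sum_congr rfl
      intro u _
      apply sum_congr rfl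
      intro x _
      have e : (fun v => w v * T x v * T u v) = (fun v => w v * T u v * T x v) := by
        funext v; ring
      have e' : (fun v => w' v * T x v * T u v) = (fun v => w' v * T u v * T x v) := by
        funext v; ring
      rw [e, e']; ring
    have hR2 : ∑ y ∈ A, ψ y * Cc A T (j+1) l (fun v => w v * T y v) (fun v => w' v * K y v)
        = ∑ u ∈ A, w u * ∑ y ∈ A, (ψ y * T y u) *
            Cc A T j l (fun v => (w v * T u v) * T y v) (fun v => (w' v * T u v) * K y v) := by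
      simp only [Cc, mul_sum]
      rw [sum_comm]
      apply sum_congr rfl
      intro u _
      apply sum_congr rfl
      intro x _
      have e : (fun v => w v * T x v * T u v) = (fun v => w v * T u v * T x v) := by
        funext v; ring
      have e' : (fun v => w' v * K x v * T u v) = (fun v => w' v * T u v * K x v) := by
        funext v; ring
      rw [e, e']; ring
    have hR3 : Cc A T (j+1) l w w'
        = ∑ u ∈ A, w u * Cc A T j l (fun v => w v * T u v) (fun v => w' v * T u v) := by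
      rw [Cc]
    rw [hL, hR1, hR2, hR3, ← sum_add_distrib, ← sum_add_distrib, mul_sum]
    apply sum_le_sum
    intro u _
    have := mul_le_mul_of_nonneg_left (hih u) (hw u)
    refine le_trans this (le_of_eq ?_)
    ring

end bil

end Pool.Agent.H230R2.RM
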