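import Pool.Agent.H230R2.RM.Det

set_option autoImplicit false

namespace Pool.Agent.H230R2.RM

open Finset

variable {ι : Type}

lemma jensen (A : Finset ι) (hA : A.Nonempty) (T K : ι → ι → ℝ) (hT0 : ∀ x y, 0 ≤ T x y)
    (hK0 : ∀ x y, 0 < K x y) (hKs : ∀ x y, K x y = K y x) (lam : ℝ)
    (hg : ∀ x ∈ A, ∑ y ∈ A, -Real.log (K x y) ≤ lam * A.card) (i : ℕ) :
    ∀ (w G : ι → ℝ), (∀ x, 0 ≤ w x) →
      (A.card : ℝ) * Real.exp (-((∑ y ∈ A, G y) / A.card) - lam * i) * Bc A T i w
        ≤ ∑ y ∈ A, Real.exp (-(G y)) * Bc A T i (fun v => w v * K y v) := by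
  have hn : (0:ℝ) < A.card := by exact_mod_cast hA.card_pos
  induction i with
  | zero =>
    intro w G _
    simp only [Bc, mul_one, Nat.cast_zero, mul_zero, sub_zero]
    have h := convexOn_exp.map_sum_le (t := A) (w := fun _ => 1/(A.card:ℝ))
      (p := fun y => -(G y)) (fun _ _ => by positivity)
      (by rw [sum_const, nsmul_eq_mul]; field_simp) (fun _ _ => Set.mem_univ _)
    simp only [smul_eq_mul] at h
    rw [← mul_sum, ← mul_sum, sum_neg_distrib] at h
    have h2 : 1/(A.card:ℝ) * -∑ y ∈ A, G y = -((∑ y ∈ A, G y) / A.card) := by ring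
    rw [h2] at h
    have h3 := mul_le_mul_of_nonneg_left h hn.le
    refine le_trans h3 (le_of_eq ?_)
    field_simp
  | succ i ih =>
    intro w G hw
    have h1 : ∑ y ∈ A, Real.exp (-(G y)) * Bc A T (i+1) (fun v => w v * K y v)
        = ∑ x ∈ A, w x * ∑ y ∈ A, Real.exp (-(G y + -Real.log (K x y))) *
            Bc A T i (fun v => (w v * T x v) * K y v) := by
      simp only [Bc, mul_sum]
      rw [sum_comm]
      apply sum_congr rfl
      intro x _
      apply sum_congr rfl
      intro y _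
      have e : (fun v => w v * K y v * T x v) = (fun v => w v * T x v * K y v) := by
        funext v; ring
      rw [e]
      have e2 : Real.exp (-(G y + -Real.log (K x y))) = Real.exp (-(G y)) * K x y := by
        rw [neg_add, neg_neg, Real.exp_add, Real.exp_log (hK0 x y)]
      rw [e2, hKs y x]
      ring
    rw [h1]
    have h2 : (A.card : ℝ) * Real.exp (-((∑ y ∈ A, G y) / A.card) - lam * ((i+1 : ℕ):ℝ))
          * Bc A T (i+1) w
        = ∑ x ∈ A, w x * ((A.card : ℝ) * Real.exp (-((∑ y ∈ A, G y) / A.card)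
            - lam * ((i+1 : ℕ):ℝ)) * Bc A T i (fun v => w v * T x v)) := by
      rw [Bc, mul_sum]
      apply sum_congr rfl
      intro x _
      ring
    rw [h2]
    apply sum_le_sum
    intro x hx
    apply mul_le_mul_of_nonneg_left _ (hw x)
    refine le_trans ?_ (ih (fun v => w v * T x v) (fun y => G y + -Real.log (K x y))
      (fun v => mul_nonneg (hw v) (hT0 x v)))
    apply mul_le_mul_of_nonneg_right _ (Bc_nonneg A T hT0 i _
      (fun v => mul_nonneg (hw v) (hT0 x v)))
    apply mul_le_mul_of_nonneg_left _ hn.le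
    apply Real.exp_le_exp.mpr
    rw [sum_add_distrib, add_div]
    have h3 : (∑ y ∈ A, -Real.log (K x y)) / A.card ≤ lam := by
      rw [div_le_iff₀ hn]
      exact hg x hx
    push_cast
    linarith

lemma exists_clique (A : Finset ι) (T : ι → ι → ℝ) (hT0 : ∀ x y, 0 ≤ T x y)
    (hTs : ∀ x y, T x y = T y x) (hTd : ∀ x, T x x = 0) (l : ℕ) :
    ∀ (w : ι → ℝ), (∀ x, 0 ≤ w x) → 0 < Bc A T l w →
      ∃ s : Finset ι, s ⊆ A ∧ s.card = l ∧ (∀ x ∈ s, 0 < w x) ∧
        ∀ x ∈ s, ∀ y ∈ s, x ≠ y → 0 < T x y := by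
  classical
  induction l with
  | zero => intro w _ _; exact ⟨∅, by simp, by simp, by simp, by simp⟩
  | succ l ih =>
    intro w hw hpos
    rw [Bc] at hpos
    obtain ⟨x, hx, hpx⟩ : ∃ x ∈ A, 0 < w x * Bc A T l (fun v => w v * T x v) := by
      by_contra hcon
      push Not at hcon
      have := sum_nonpos hcon
      linarith
    have hB : 0 ≤ Bc A T l (fun v => w v * T x v) :=
      Bc_nonneg A T hT0 l _ (fun v => mul_nonneg (hw v) (hT0 x v))
    have hB' : 0 < Bc A T l (fun v => w v * T x v) := by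
      rcases hB.lt_or_eq with h | h
      · exact h
      · rw [← h] at hpx; simp at hpx
    have hwx : 0 < w x := by
      rcases (hw x).lt_or_eq with h | h
      · exact h
      · rw [← h] at hpx; simp at hpx
    obtain ⟨s, hsA, hsc, hsw, hsT⟩ := ih _ (fun v => mul_nonneg (hw v) (hT0 x v)) hB'
    have hsT' : ∀ v ∈ s, 0 < T x v := by
      intro v hv
      have := hsw v hv
      rcases (hT0 x v).lt_or_eq with h | h
      · exact h
      · rw [← h] at this; simp at this
    have hsw' : ∀ v ∈ s, 0 < w v := by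
      intro v hv
      have := hsw v hv
      rcases (hw v).lt_or_eq with h | h
      · exact h
      · rw [← h] at this; simp at this
    have hxs : x ∉ s := by
      intro hxs
      have := hsT' x hxs
      rw [hTd] at this
      exact lt_irrefl _ this
    refine ⟨insert x s, ?_, ?_, ?_, ?_⟩
    · intro v hv
      rw [mem_insert] at hv
      rcases hv with rfl | hv
      · exact hx
      · exact hsA hv
    · rw [card_insert_of_notMem hxs, hsc]
    · intro v hv
      rw [mem_insert] at hv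
      rcases hv with rfl | hv
      · exact hwx
      · exact hsw' v hv
    · intro u hu v hv huv
      rw [mem_insert] at hu hv
      rcases hu with rfl | hu
      · rcases hv with rfl | hv
        · exact absurd rfl huv
        · exact hsT' v hv
      · rcases hv with rfl | hv
        · rw [hTs]; exact hsT' u hu
        · exact hsT u hu v hv huv

lemma diff_bound (A : Finset ι) (T K : ι → ι → ℝ) (e1 c2 : ℝ)
    (hTs : ∀ x y, T x y = T y x) (hKs : ∀ x y, K x y = K y x)
    (hT : ∀ x y, 0 ≤ T x y ∧ T x y ≤ 1) (hK : ∀ x y, 0 ≤ K x y ∧ K x y ≤ 1)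
    (hD : ∀ X Y : Finset ι, X ⊆ A → Y ⊆ A →
      |∑ x ∈ X, ∑ y ∈ Y, (T x y - K x y)|
        ≤ e1 * ∑ x ∈ X, ∑ y ∈ Y, K x y + c2 * ((X.card : ℝ) + Y.card + 1))
    (j l : ℕ) :
    |∑ y ∈ A, Cc A T (j+1) l (fun v => T y v) (fun v => K y v)
        - ∑ y ∈ A, Cc A T j (l+1) (fun v => T y v) (fun v => K y v)|
      ≤ e1 * ∑ y ∈ A, Cc A T j (l+1) (fun v => T y v) (fun v => K y v)
        + c2 * (Bc A T (j+l+1) (fun _ => 1)
          + ∑ y ∈ A, Cc A T j l (fun v => T y v) (fun v => K y v)
          + Bc A T (j+l) (fun _ => 1)) := by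
  have h1 : ∑ y ∈ A, Cc A T (j+1) l (fun v => T y v) (fun v => K y v)
      = ∑ x ∈ A, ∑ y ∈ A, T x y *
        Cc A T j l (fun v => 1 * T y v * T x v) (fun v => 1 * K y v * T x v) := by
    rw [sum_comm]
    apply sum_congr rfl
    intro y _
    rw [Cc]
    apply sum_congr rfl
    intro x _
    rw [hTs y x]
    simp only [one_mul]
  have h2 : ∑ y ∈ A, Cc A T j (l+1) (fun v => T y v) (fun v => K y v)
      = ∑ x ∈ A, ∑ y ∈ A, K x y *
        Cc A T j l (fun v => 1 * T y v * T x v) (fun v => 1 * K y v * T x v) := by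
    rw [sum_comm]
    apply sum_congr rfl
    intro y _
    rw [Cc_exp A T hTs]
    apply sum_congr rfl
    intro x _
    rw [hKs y x]
    simp only [one_mul]
  have hs1 : ∀ s : ℝ, (s = 1 ∨ s = -1) →
      ∑ x ∈ A, ∑ y ∈ A, (s * (T x y - K x y) - e1 * K x y) *
        Cc A T j l (fun v => 1 * T y v * T x v) (fun v => 1 * K y v * T x v)
      ≤ c2 * (Bc A T (j+l+1) (fun _ => 1)
          + ∑ y ∈ A, Cc A T j l (fun v => T y v) (fun v => K y v)
          + Bc A T (j+l) (fun _ => 1)) := by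
    intro s hs
    have hsets : ∀ X Y : Finset ι, X ⊆ A → Y ⊆ A →
        ∑ x ∈ X, ∑ y ∈ Y, (s * (T x y - K x y) - e1 * K x y)
          ≤ c2 * ((X.card : ℝ) + Y.card + 1) := by
      intro X Y hX hY
      have hd := abs_le.mp (hD X Y hX hY)
      have e : ∑ x ∈ X, ∑ y ∈ Y, (s * (T x y - K x y) - e1 * K x y)
          = s * ∑ x ∈ X, ∑ y ∈ Y, (T x y - K x y) - e1 * ∑ x ∈ X, ∑ y ∈ Y, K x y := by
        simp only [mul_sum, ← sum_sub_distrib]
      rw [e]
      rcases hs with rfl | rfl
      · linarith [hd.2]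
      · linarith [hd.1]
    have hfun := bil_fun A (fun x y => s * (T x y - K x y) - e1 * K x y) c2 hsets
    have := bilC A T K (fun x y => s * (T x y - K x y) - e1 * K x y) c2 hTs hT hK
      (fun φ ψ hφ hψ => hfun φ ψ hφ hψ) j l (fun _ => 1) (fun _ => 1) (fun _ => 1) (fun _ => 1)
      (fun _ => zero_le_one) (fun _ => zero_le_one) (fun _ => ⟨zero_le_one, le_rfl⟩)
      (fun _ => ⟨zero_le_one, le_rfl⟩)
    simp only [mul_one] at this
    refine le_trans this (le_of_eq ?_)
    congr 1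
    have e1 : ∑ x ∈ A, 1 * Cc A T j l (fun v => 1 * T x v) (fun v => 1 * T x v)
        = Bc A T (j+l+1) (fun _ => 1) := by
      rw [Bc]
      apply sum_congr rfl
      intro x _
      rw [Cc_same]
    rw [e1, Cc_same]
    simp only [one_mul]
  have hp := hs1 1 (Or.inl rfl)
  have hm := hs1 (-1) (Or.inr rfl)
  have ep : ∀ s : ℝ, ∑ x ∈ A, ∑ y ∈ A, (s * (T x y - K x y) - e1 * K x y) *
        Cc A T j l (fun v => 1 * T y v * T x v) (fun v => 1 * K y v * T x v)
      = s * (∑ y ∈ A, Cc A T (j+1) l (fun v => T y v) (fun v => K y v)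
        - ∑ y ∈ A, Cc A T j (l+1) (fun v => T y v) (fun v => K y v))
        - e1 * ∑ y ∈ A, Cc A T j (l+1) (fun v => T y v) (fun v => K y v) := by
    intro s
    rw [h1, h2]
    simp only [mul_sum, ← sum_sub_distrib]
    apply sum_congr rfl
    intro x _
    apply sum_congr rfl
    intro y _
    ring
  rw [ep] at hp hm
  rw [abs_le]
  constructor <;> linarith

/-- extremal subset -/
lemma exists_subset [Fintype ι] [DecidableEq ι] (g : ι → ι → ℝ) (hs : ∀ x y, g x y = g y x)
    (hd : ∀ x, g x x = 0) (h0 : ∀ x y, 0 ≤ g x y) (c lam : ℝ) (hlam : 0 ≤ lam)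
    (hc : ∑ x, ∑ y, g x y ≤ c * (Fintype.card ι : ℝ)^2) :
    ∃ A : Finset ι, (∀ v ∈ A, ∑ y ∈ A, g v y ≤ lam * A.card) ∧
      (lam - c) * (Fintype.card ι : ℝ)^2 ≤ lam * (A.card : ℝ)^2 := by
  set F : Finset ι → ℝ := fun A => lam * (A.card:ℝ)^2 - ∑ x ∈ A, ∑ y ∈ A, g x y with hF
  obtain ⟨A, -, hA⟩ := exists_max_image (univ : Finset (Finset ι)) F ⟨∅, mem_univ _⟩
  refine ⟨A, ?_, ?_⟩
  · intro v hv
    have h1 := hA (A.erase v) (mem_univ _)
    have h2 : ∑ x ∈ A, ∑ y ∈ A, g x y
        = ∑ x ∈ A.erase v, ∑ y ∈ A.erase v, g x y + 2 * ∑ y ∈ A, g v y := by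
      rw [← add_sum_erase A _ hv]
      have h3 : ∀ x ∈ A.erase v, ∑ y ∈ A, g x y = g x v + ∑ y ∈ A.erase v, g x y := by
        intro x _
        rw [← add_sum_erase A _ hv]
      rw [sum_congr rfl h3, sum_add_distrib]
      have h4 : ∑ y ∈ A, g v y = ∑ x ∈ A.erase v, g x v := by
        rw [← add_sum_erase A _ hv, hd, zero_add]
        apply sum_congr rfl
        intro x _
        exact hs v x
      rw [← h4]
      ring
    simp only [hF] at h1
    rw [h2, card_erase_of_mem hv] at h1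
    have hpos : 1 ≤ A.card := card_pos.mpr ⟨v, hv⟩
    rw [Nat.cast_sub hpos] at h1
    push_cast at h1
    nlinarith
  · have h1 := hA univ (mem_univ _)
    simp only [hF] at h1
    rw [card_univ] at h1
    have h2 : 0 ≤ ∑ x ∈ A, ∑ y ∈ A, g x y :=
      sum_nonneg fun x _ => sum_nonneg fun y _ => h0 x y
    linarith

/-- the counting theorem -/
theorem count_cliques (A : Finset ι) (T K : ι → ι → ℝ) (e1 c2 lam κ : ℝ) (Q : ℕ)
    (hTs : ∀ x y, T x y = T y x) (hKs : ∀ x y, K x y = K y x)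
    (hT : ∀ x y, 0 ≤ T x y ∧ T x y ≤ 1) (hTd : ∀ x, T x x = 0)
    (hK : ∀ x y, 0 < K x y ∧ K x y ≤ 1)
    (hD : ∀ X Y : Finset ι, X ⊆ A → Y ⊆ A →
      |∑ x ∈ X, ∑ y ∈ Y, (T x y - K x y)|
        ≤ e1 * ∑ x ∈ X, ∑ y ∈ Y, K x y + c2 * ((X.card : ℝ) + Y.card + 1))
    (hg : ∀ x ∈ A, ∑ y ∈ A, -Real.log (K x y) ≤ lam * A.card)
    (he1 : 0 ≤ e1) (hc2 : 0 ≤ c2) (hlam : 0 ≤ lam) (hκ : 2 ≤ κ)
    (hκ2 : κ ≤ (A.card : ℝ) * Real.exp (-(lam * Q)))
    (hη : (Q : ℝ) * (2 * e1 + 4 * c2 / κ) ≤ 1/4) :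
    ∃ s : Finset ι, s ⊆ A ∧ s.card = Q ∧ ∀ x ∈ s, ∀ y ∈ s, x ≠ y → 0 < T x y := by
  have hκ0 : 0 < κ := by linarith
  have hT0 : ∀ x y, 0 ≤ T x y := fun x y => (hT x y).1
  have hK' : ∀ x y, 0 ≤ K x y ∧ K x y ≤ 1 := fun x y => ⟨(hK x y).1.le, (hK x y).2⟩
  have hAn : A.Nonempty := by
    rw [nonempty_iff_ne_empty]
    rintro rfl
    simp at hκ2
    linarith
  have hn : (0:ℝ) < A.card := by exact_mod_cast hAn.card_pos
  set Nn : ℕ → ℝ := fun i => Bc A T i (fun _ => 1) with hNn
  set a : ℕ → ℕ → ℝ := fun j l => ∑ y ∈ A, Cc A T j l (fun v => T y v) (fun v => K y v) with ha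
  have ha0 : ∀ j l, 0 ≤ a j l := by
    intro j l
    simp only [ha]
    exact sum_nonneg fun y _ => Cc_nonneg A T hT0 j l _ _ (fun x => hT0 y x)
      (fun x => (hK y x).1.le)
  have hN0 : ∀ i, 0 ≤ Nn i := fun i => Bc_nonneg A T hT0 i _ (fun _ => zero_le_one)
  have hfin : ∀ i, a i 0 = Nn (i+1) := by
    intro i
    simp only [ha, hNn]
    rw [Bc]
    apply sum_congr rfl
    intro y _
    rw [Cc_zero]
    simp only [one_mul]
  have hκi : ∀ i : ℕ, i ≤ Q → κ ≤ (A.card:ℝ) * Real.exp (-(lam * i)) := by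
    intro i hi
    refine le_trans hκ2 (mul_le_mul_of_nonneg_left (Real.exp_le_exp.mpr ?_) hn.le)
    have : lam * i ≤ lam * Q := mul_le_mul_of_nonneg_left (by exact_mod_cast hi) hlam
    linarith
  have hstart : ∀ i, i ≤ Q → κ * Nn i ≤ a 0 i := by
    intro i hi
    have h1 := jensen A hAn T K hT0 (fun x y => (hK x y).1) hKs lam hg i (fun _ => 1)
      (fun _ => 0) (fun _ => zero_le_one)
    have h2 : ∑ y ∈ A, Real.exp (-(0:ℝ)) * Bc A T i (fun v => 1 * K y v) = a 0 i := by
      simp only [ha, Cc]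
      apply sum_congr rfl
      intro y _
      rw [neg_zero, Real.exp_zero, one_mul]
      simp only [one_mul]
    rw [h2] at h1
    refine le_trans ?_ h1
    apply mul_le_mul_of_nonneg_right _ (hN0 i)
    refine le_trans (hκi i hi) (le_of_eq ?_)
    congr 2
    simp
  set η : ℝ := 2 * e1 + 4 * c2 / κ with hηdef
  have hη0 : 0 ≤ η := by positivity
  -- the main induction
  have main : ∀ i : ℕ, i + 1 ≤ Q →
      (∀ j l, j + l = i → a j l ≤ 2 * Nn (i+1)) ∧ Nn i ≤ Nn (i+1) ∧ 0 < Nn (i+1) := by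
    intro i
    induction i with
    | zero =>
      intro hQ
      have h0 : a 0 0 = Nn 1 := hfin 0
      have h1 := hstart 0 (Nat.zero_le _)
      have hN00 : Nn 0 = 1 := by simp only [hNn, Bc]
      rw [hN00, h0] at h1
      refine ⟨?_, ?_, ?_⟩
      · intro j l hjl
        have hj : j = 0 := by omega
        have hl : l = 0 := by omega
        rw [hj, hl, h0]
        linarith
      · rw [hN00]; linarith
      · linarith
    | succ i ih =>
      intro hQ
      obtain ⟨ih1, ih2, ih3⟩ := ih (by omega)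
      have hs := hstart (i+1) (by omega)
      have ha00 : 0 < a 0 (i+1) := lt_of_lt_of_le (mul_pos hκ0 ih3) hs
      have hstep : ∀ j, j ≤ i + 1 → |a j (i + 1 - j) - a 0 (i+1)| ≤ j * η * a 0 (i+1) := by
        intro j
        induction j with
        | zero => intro _; simp
        | succ j ihj =>
          intro hj
          have hprev := ihj (by omega)
          have hd := diff_bound A T K e1 c2 hTs hKs hT hK' hD j (i - j)
          have e1' : i - j + 1 = i + 1 - j := by omega
          have e2' : j + (i - j) + 1 = i + 1 := by omega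
          have e3' : j + (i - j) = i := by omega
          have e4' : i + 1 - (j + 1) = i - j := by omega
          rw [e1', e2', e3'] at hd
          rw [e4']
          have hd' : |a (j+1) (i-j) - a j (i+1-j)| ≤ e1 * a j (i+1-j)
              + c2 * (Nn (i+1) + a j (i-j) + Nn i) := hd
          have h5 := ih1 j (i-j) (by omega)
          have hjQ : (j:ℝ) * η ≤ 1/4 := by
            refine le_trans (mul_le_mul_of_nonneg_right ?_ hη0) hη
            exact_mod_cast (by omega : j ≤ Q)
          have h6 : a j (i+1-j) ≤ 2 * a 0 (i+1) := by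
            have h7 := (abs_le.mp hprev).2
            have h8 : (j:ℝ) * η * a 0 (i+1) ≤ 1/4 * a 0 (i+1) :=
              mul_le_mul_of_nonneg_right hjQ ha00.le
            linarith
          have h9 : c2 * (Nn (i+1) + a j (i-j) + Nn i) ≤ 4 * c2 / κ * a 0 (i+1) := by
            have h10 : Nn (i+1) + a j (i-j) + Nn i ≤ 4 * Nn (i+1) := by linarith
            have h11 : Nn (i+1) ≤ a 0 (i+1) / κ := by
              rw [le_div_iff₀ hκ0]; linarith
            calc c2 * (Nn (i+1) + a j (i-j) + Nn i) ≤ c2 * (4 * Nn (i+1)) :=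
                  mul_le_mul_of_nonneg_left h10 hc2
              _ ≤ c2 * (4 * (a 0 (i+1) / κ)) := by
                  apply mul_le_mul_of_nonneg_left _ hc2
                  linarith
              _ = _ := by ring
          have h12 : e1 * a j (i+1-j) ≤ 2 * e1 * a 0 (i+1) := by
            have := mul_le_mul_of_nonneg_left h6 he1
            linarith
          have h13 : |a (j+1) (i-j) - a j (i+1-j)| ≤ η * a 0 (i+1) := by
            rw [hηdef, add_mul]
            linarith
          have h14 : a (j+1) (i-j) - a 0 (i+1)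
              = (a (j+1) (i-j) - a j (i+1-j)) + (a j (i+1-j) - a 0 (i+1)) := by ring
          rw [h14]
          refine le_trans (abs_add_le _ _) ?_
          push_cast
          nlinarith
      have hall : ∀ j, j ≤ i+1 → |a j (i+1-j) - a 0 (i+1)| ≤ 1/4 * a 0 (i+1) := by
        intro j hj
        refine le_trans (hstep j hj) ?_
        apply mul_le_mul_of_nonneg_right _ ha00.le
        refine le_trans (mul_le_mul_of_nonneg_right ?_ hη0) hη
        exact_mod_cast (by omega : j ≤ Q)
      have hlast := hall (i+1) le_rfl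
      rw [Nat.sub_self, hfin (i+1)] at hlast
      have hl1 := (abs_le.mp hlast).1
      have hN : 3/4 * a 0 (i+1) ≤ Nn (i+1+1) := by linarith
      refine ⟨?_, ?_, ?_⟩
      · intro j l hjl
        have hl : l = i + 1 - j := by omega
        have := (abs_le.mp (hall j (by omega))).2
        rw [hl]
        linarith
      · have : Nn (i+1) * 2 ≤ a 0 (i+1) := by
          have := mul_le_mul_of_nonneg_right hκ (hN0 (i+1))
          linarith
        linarith
      · linarith
  have hpos : 0 < Bc A T Q (fun _ => (1:ℝ)) := by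
    rcases Nat.eq_zero_or_pos Q with h | h
    · rw [h]; simp [Bc]
    · obtain ⟨i, rfl⟩ : ∃ i, Q = i + 1 := ⟨Q - 1, by omega⟩
      exact (main i le_rfl).2.2
  obtain ⟨s, h1, h2, _, h4⟩ := exists_clique A T hT0 hTs hTd Q (fun _ => 1)
    (fun _ => zero_le_one) hpos
  exact ⟨s, h1, h2, h4⟩

end Pool.Agent.H230R2.RM
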