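import Pool.Agent.H230R2.RM.Mart
import Pool.Agent.H230R2.RM.Det2
import Pool.Agent.H230R2.RM.Asym

set_option autoImplicit false

namespace Pool.Agent.H230R2.RM

open Finset Filter

section ext

variable {N : ℕ}

/-- a function on the edges as a symmetric matrix with diagonal `d` -/
noncomputable def extm (F : Edge N → ℝ) (d : ℝ) (x y : Fin N) : ℝ :=
  if h : x < y then F ⟨(x, y), h⟩ else if h : y < x then F ⟨(y, x), h⟩ else d

lemma extm_symm (F : Edge N → ℝ) (d : ℝ) (x y : Fin N) : extm F d x y = extm F d y x := by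
  unfold extm
  by_cases h1 : x < y
  · have h2 : ¬ y < x := not_lt.mpr h1.le
    simp [h1, h2]
  · by_cases h2 : y < x
    · simp [h1, h2]
    · simp [h1, h2]

lemma extm_diag (F : Edge N → ℝ) (d : ℝ) (x : Fin N) : extm F d x x = d := by
  unfold extm; simp

lemma extm_edge (F : Edge N → ℝ) (d : ℝ) (e : Edge N) : extm F d e.1.1 e.1.2 = F e := by
  unfold extm
  rw [dif_pos e.2]

lemma extm_ind (F : Edge N → ℝ) (d : ℝ) (p : ℝ → Prop) (hF : ∀ e, p (F e)) (hd : p d)
    (x y : Fin N) : p (extm F d x y) := by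
  unfold extm
  split_ifs
  · exact hF _
  · exact hF _
  · exact hd

/-- the number of ways to see an edge as an element of `X × Y` -/
noncomputable def atest (X Y : Finset (Fin N)) (e : Edge N) : ℝ :=
  (if e.1.1 ∈ X ∧ e.1.2 ∈ Y then 1 else 0) + (if e.1.2 ∈ X ∧ e.1.1 ∈ Y then 1 else 0)

lemma atest_mem (X Y : Finset (Fin N)) (e : Edge N) : 0 ≤ atest X Y e ∧ atest X Y e ≤ 2 := by
  unfold atest
  split_ifs <;> norm_num

lemma sum_extm (X Y : Finset (Fin N)) (F : Edge N → ℝ) :
    ∑ x ∈ X, ∑ y ∈ Y, extm F 0 x y = ∑ e, atest X Y e * F e := by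
  classical
  have h1 := sum_pairs (univ : Finset (Fin N)) (fun x y =>
    ((if x ∈ X ∧ y ∈ Y then 1 else 0) + (if y ∈ X ∧ x ∈ Y then 1 else 0)) * extm F 0 x y)
    (fun x y => by rw [extm_symm F 0 y x, add_comm])
  have h2 : ∑ x : Fin N, ((if x ∈ X ∧ x ∈ Y then (1:ℝ) else 0)
      + (if x ∈ X ∧ x ∈ Y then 1 else 0)) * extm F 0 x x = 0 := by
    apply sum_eq_zero
    intro x _
    rw [extm_diag, mul_zero]
  rw [h2, add_zero] at h1
  have h3 : ∑ e ∈ pairs (univ : Finset (Fin N)),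
      ((if e.1.1 ∈ X ∧ e.1.2 ∈ Y then (1:ℝ) else 0) + (if e.1.2 ∈ X ∧ e.1.1 ∈ Y then 1 else 0))
        * extm F 0 e.1.1 e.1.2 = ∑ e, atest X Y e * F e := by
    have : pairs (univ : Finset (Fin N)) = univ := by rw [pairs]; simp
    rw [this]
    apply sum_congr rfl
    intro e _
    rw [extm_edge]
    rfl
  rw [h3] at h1
  have h4 : ∑ x : Fin N, ∑ y : Fin N,
      ((if x ∈ X ∧ y ∈ Y then (1:ℝ) else 0) + (if y ∈ X ∧ x ∈ Y then 1 else 0)) * extm F 0 x y
      = 2 * ∑ x ∈ X, ∑ y ∈ Y, extm F 0 x y := by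
    have h5 : ∀ (G : Fin N → Fin N → ℝ), ∑ x : Fin N, ∑ y : Fin N,
        (if x ∈ X ∧ y ∈ Y then (1:ℝ) else 0) * G x y = ∑ x ∈ X, ∑ y ∈ Y, G x y := by
      intro G
      rw [← sum_subset (subset_univ X)]
      · apply sum_congr rfl
        intro x hx
        rw [← sum_subset (subset_univ Y)]
        · apply sum_congr rfl
          intro y hy
          rw [if_pos ⟨hx, hy⟩, one_mul]
        · intro y _ hy
          rw [if_neg (fun h => hy h.2), zero_mul]
      · intro x _ hx
        apply sum_eq_zero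
        intro y _
        rw [if_neg (fun h => hx h.1), zero_mul]
    simp only [add_mul, sum_add_distrib]
    rw [h5, sum_comm (f := fun x y => (if y ∈ X ∧ x ∈ Y then (1:ℝ) else 0) * extm F 0 x y)]
    have h6 : ∑ y : Fin N, ∑ x : Fin N, (if y ∈ X ∧ x ∈ Y then (1:ℝ) else 0) * extm F 0 x y
        = ∑ y : Fin N, ∑ x : Fin N, (if y ∈ X ∧ x ∈ Y then (1:ℝ) else 0) * extm F 0 y x := by
      apply sum_congr rfl
      intro y _
      apply sum_congr rfl
      intro x _
      rw [extm_symm]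
    rw [h6, h5]
    ring
  rw [h4] at h1
  linarith

end ext

lemma hasClique_mono (N q : ℕ) (M M' : Finset (Edge N)) (h : HasClique N q M) (hs : M ⊆ M') :
    HasClique N q M' := by
  obtain ⟨s, h1, h2⟩ := h
  exact ⟨s, h1, fun e ha hb => hs (h2 e ha hb)⟩

/-- the deterministic conclusion at the end of the observed rounds -/
theorem good_end (N Q r0 : ℕ) (M U : Finset (Edge N)) (W : Edge N → ℝ)
    (hI : Inv r0 M U W) (L sig c lam κ : ℝ) (hL : 0 ≤ L) (hsig : 0 < sig)
    (hr0 : 2*r0 ≤ Fintype.card (Edge N)) (hr1 : 1 ≤ r0)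
    (hlev : lev (Fintype.card (Edge N)) r0 ≤ 1)
    (htest : ∀ X Y : Finset (Fin N), ∀ s : ℝ, (s = sig ∨ s = -sig) →
      s * (∑ e ∈ M, atest X Y e - ∑ e, atest X Y e * W e)
        - 2 * s^2 * ∑ e, atest X Y e * W e < L * ((X.card : ℝ) + Y.card + 1))
    (hE : ((Fintype.card (Edge N) : ℝ) - 2*r0) * Real.log (2*(Fintype.card (Edge N) : ℝ)/r0)
      + ∑ s ∈ range r0, (Real.log 2 + Real.log (2*(Fintype.card (Edge N) : ℝ)/((s:ℝ)+1)))
      ≤ c * (Fintype.card (Edge N) : ℝ)) (hc : 0 ≤ c) (hlam0 : 0 ≤ lam)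
    (hκ : 2 ≤ κ)
    (hκ2 : ∀ n : ℕ, (lam - c) * (N:ℝ)^2 ≤ lam * (n:ℝ)^2 → κ ≤ (n : ℝ) * Real.exp (-(lam * Q)))
    (hη : (Q : ℝ) * (2 * (2*sig) + 4 * (L/(2*sig) + 1) / κ) ≤ 1/4) :
    HasClique N Q M := by
  classical
  set S : ℕ := Fintype.card (Edge N) with hS
  have hr1' : (1:ℝ) ≤ r0 := by exact_mod_cast hr1
  have hSpos : (0:ℝ) < S := by
    have : ((2*r0 : ℕ):ℝ) ≤ S := by exact_mod_cast hr0
    push_cast at this; linarith
  set T : Fin N → Fin N → ℝ := extm (fun e => ind M e) 0 with hT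
  set K : Fin N → Fin N → ℝ := extm (fun e => (ind M e + W e)/2) 1 with hK
  have hTs : ∀ x y, T x y = T y x := extm_symm _ _
  have hKs : ∀ x y, K x y = K y x := extm_symm _ _
  have hT01 : ∀ x y, 0 ≤ T x y ∧ T x y ≤ 1 := by
    intro x y
    apply extm_ind (p := fun z => 0 ≤ z ∧ z ≤ 1)
    · exact fun e => ind_range M e
    · norm_num
  have hTd : ∀ x, T x x = 0 := extm_diag _ _
  have hlevpos : 0 < lev S r0 := by
    have := lev_lb S r0 hr0
    have h2 : 0 < (r0:ℝ)/S := by positivity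
    linarith
  have hW0 : ∀ e, 0 < W e := by
    intro e
    by_cases he : e ∈ U
    · rw [hI.onU e he]; exact hlevpos
    · exact hI.pos e he
  have hWpos : ∀ e, 0 < ind M e + W e := by
    intro e
    have := hW0 e
    have := (ind_range M e).1
    linarith
  have hK01 : ∀ x y, 0 < K x y ∧ K x y ≤ 1 := by
    intro x y
    apply extm_ind (p := fun z => 0 < z ∧ z ≤ 1)
    · intro e
      have h1 := hWpos e
      have h2 := hI.le e
      have h3 := (ind_range M e).2
      exact ⟨by positivity, by linarith⟩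
    · norm_num
  have hKd : ∀ x, K x x = 1 := extm_diag _ _
  -- the two sums
  set W' : Fin N → Fin N → ℝ := extm W 0 with hW'
  have hKeq : ∀ x y, K x y = (T x y + W' x y)/2 + (if x = y then 1 else 0) := by
    intro x y
    simp only [hK, hT, hW', extm]
    by_cases h1 : x < y
    · have h3 : x ≠ y := h1.ne
      simp only [h1, dif_pos, h3, if_false, add_zero]
    · by_cases h2 : y < x
      · have h3 : x ≠ y := h2.ne'
        simp only [h1, h2, dif_pos, dif_neg, not_false_iff, h3, if_false, add_zero]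
      · have h3 : x = y := le_antisymm (not_lt.mp h2) (not_lt.mp h1)
        simp [h3]
  have hsT : ∀ X Y : Finset (Fin N), ∑ x ∈ X, ∑ y ∈ Y, T x y = ∑ e ∈ M, atest X Y e := by
    intro X Y
    rw [hT, sum_extm]
    exact sum_ind M (fun e => atest X Y e)
  have hsW : ∀ X Y : Finset (Fin N), ∑ x ∈ X, ∑ y ∈ Y, W' x y = ∑ e, atest X Y e * W e := by
    intro X Y
    rw [hW', sum_extm]
  have hW'0 : ∀ x y, 0 ≤ W' x y := by
    intro x y
    apply extm_ind (p := fun z => 0 ≤ z)
    · exact fun e => (hW0 e).le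
    · exact le_rfl
  have hD : ∀ X Y : Finset (Fin N), |∑ x ∈ X, ∑ y ∈ Y, (T x y - K x y)|
      ≤ (2*sig) * ∑ x ∈ X, ∑ y ∈ Y, K x y
        + (L/(2*sig) + 1) * ((X.card : ℝ) + Y.card + 1) := by
    intro X Y
    set a := ∑ x ∈ X, ∑ y ∈ Y, T x y with ha
    set b := ∑ x ∈ X, ∑ y ∈ Y, W' x y with hb
    set d : ℝ := ∑ x ∈ X, ∑ y ∈ Y, (if x = y then (1:ℝ) else 0) with hd
    have ha0 : 0 ≤ a := sum_nonneg fun x _ => sum_nonneg fun y _ => (hT01 x y).1
    have hb0 : 0 ≤ b := sum_nonneg fun x _ => sum_nonneg fun y _ => hW'0 x y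
    have hd0 : 0 ≤ d := sum_nonneg fun x _ => sum_nonneg fun y _ => by split_ifs <;> norm_num
    have hd1 : d ≤ X.card := by
      rw [hd]
      calc ∑ x ∈ X, ∑ y ∈ Y, (if x = y then (1:ℝ) else 0) ≤ ∑ x ∈ X, (1:ℝ) := by
            apply sum_le_sum
            intro x _
            rw [sum_ite_eq]
            split_ifs <;> norm_num
        _ = _ := by simp
    have e1 : ∑ x ∈ X, ∑ y ∈ Y, (T x y - K x y) = (a - b)/2 - d := by
      have : ∀ x y, T x y - K x y = (T x y - W' x y)/2 - (if x = y then 1 else 0) := by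
        intro x y; rw [hKeq]; ring
      rw [ha, hb, hd]
      simp only [this, sum_sub_distrib, ← sum_div]
    have e2 : ∑ x ∈ X, ∑ y ∈ Y, K x y = (a + b)/2 + d := by
      rw [ha, hb, hd]
      simp only [hKeq, sum_add_distrib, ← sum_div]
    have t1 := htest X Y sig (Or.inl rfl)
    have t2 := htest X Y (-sig) (Or.inr rfl)
    rw [← hsT, ← hsW, ← ha, ← hb] at t1 t2
    set t : ℝ := L * ((X.card : ℝ) + Y.card + 1) with ht
    have t1' : a - b ≤ 2*sig*b + t/sig := by
      have : sig * (a - b) ≤ sig * (2*sig*b + t/sig) := by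
        have e : sig * (2*sig*b + t/sig) = 2*sig^2*b + t := by field_simp
        rw [e]; linarith
      exact le_of_mul_le_mul_left this hsig
    have t2' : -(a - b) ≤ 2*sig*b + t/sig := by
      have : sig * (-(a - b)) ≤ sig * (2*sig*b + t/sig) := by
        have e : sig * (2*sig*b + t/sig) = 2*sig^2*b + t := by field_simp
        rw [e]; nlinarith
      exact le_of_mul_le_mul_left this hsig
    have e3 : (L/(2*sig) + 1) * ((X.card : ℝ) + Y.card + 1)
        = t/sig/2 + ((X.card : ℝ) + Y.card + 1) := by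
      rw [ht]; field_simp
    have hY0 : (0:ℝ) ≤ Y.card := Nat.cast_nonneg _
    have hsb : 0 ≤ sig * a := by positivity
    have hsd : 0 ≤ sig * d := by positivity
    rw [e1, e2, e3, abs_le]
    constructor
    · nlinarith
    · nlinarith
  -- the energy
  have hg : ∑ x, ∑ y, -Real.log (K x y) ≤ c * (Fintype.card (Fin N) : ℝ)^2 := by
    have h1 := sum_pairs (univ : Finset (Fin N)) (fun x y => -Real.log (K x y))
      (fun x y => by rw [hKs])
    have h2 : ∑ x : Fin N, -Real.log (K x x) = 0 := by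
      apply sum_eq_zero
      intro x _
      rw [hKd]; simp
    rw [h1, h2, add_zero]
    have h3 : ∑ e ∈ pairs (univ : Finset (Fin N)), -Real.log (K e.1.1 e.1.2)
        = ∑ e : Edge N, -Real.log ((ind M e + W e)/2) := by
      have : pairs (univ : Finset (Fin N)) = univ := by rw [pairs]; simp
      rw [this]
      apply sum_congr rfl
      intro e _
      rw [hK, extm_edge]
    rw [h3]
    have h4 : ∑ e : Edge N, -Real.log ((ind M e + W e)/2) ≤ c * S :=
      le_trans (hI.total r0 M U W hr0 hr1) hE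
    have h12 := card_edge N
    rw [Fintype.card_fin]
    have hN0 : (0:ℝ) ≤ N := Nat.cast_nonneg N
    nlinarith
  obtain ⟨A, hA1, hA2⟩ := exists_subset (fun x y => -Real.log (K x y))
    (fun x y => by rw [hKs]) (fun x => by rw [hKd]; simp)
    (fun x y => by
      have := Real.log_nonpos (hK01 x y).1.le (hK01 x y).2
      linarith) c lam hlam0 hg
  rw [Fintype.card_fin] at hA2
  obtain ⟨s, _, hs2, hs3⟩ := count_cliques A T K (2*sig) (L/(2*sig) + 1) lam κ Q hTs hKs hT01 hTd
    hK01 (fun X Y _ _ => hD X Y) hA1 (by positivity) (by positivity) hlam0 hκ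
    (hκ2 A.card hA2) hη
  refine ⟨s, hs2, ?_⟩
  intro e he1 he2
  have hne : e.1.1 ≠ e.1.2 := e.2.ne
  have := hs3 _ he1 _ he2 hne
  rw [hT, extm_edge] at this
  by_contra hcon
  rw [ind_notMem _ _ hcon] at this
  exact lt_irrefl _ this

end Pool.Agent.H230R2.RM
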