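import Pool.Agent.H230R2.RM.Lower

set_option autoImplicit false

namespace Pool.Agent.H230R2.RM

open Finset Filter

lemma sum_log_bound (S : ℝ) (hS : 0 < S) (r : ℕ) (hr : 1 ≤ r) :
    ∑ s ∈ range r, (Real.log 2 + Real.log (2*S/((s:ℝ)+1)))
      ≤ r * (Real.log 2 + Real.log (2*S/r) + 1) := by
  induction r, hr using Nat.le_induction with
  | base =>
    simp
  | succ r hr ih =>
    rw [sum_range_succ]
    have hr0 : (0:ℝ) < r := by exact_mod_cast hr
    have h1 : Real.log (2*S/(r:ℝ)) = Real.log (2*S/((r:ℝ)+1)) + Real.log (1 + 1/(r:ℝ)) := by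
      rw [← Real.log_mul (by positivity) (by positivity)]
      congr 1
      field_simp
    have h2 : Real.log (1 + 1/(r:ℝ)) ≤ 1/(r:ℝ) := by
      have := Real.log_le_sub_one_of_pos (show 0 < 1 + 1/(r:ℝ) by positivity)
      linarith
    rw [h1] at ih
    push_cast
    have h3 : (r:ℝ) * Real.log (1 + 1/(r:ℝ)) ≤ 1 := by
      have := mul_le_mul_of_nonneg_left h2 hr0.le
      rw [mul_one_div, div_self hr0.ne'] at this
      exact this
    nlinarith

lemma log_seven : Real.log 7 ≤ 2 := by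
  rw [Real.log_le_iff_le_exp (by norm_num)]
  have h1 := Real.exp_one_gt_d9
  have h2 : Real.exp 2 = Real.exp 1 * Real.exp 1 := by
    rw [← Real.exp_add]; norm_num
  rw [h2]
  nlinarith

lemma e_sq_le : Real.exp 1 * Real.exp 1 ≤ 7.5 := by
  have h1 := Real.exp_one_lt_d9
  have h2 := Real.exp_pos 1
  nlinarith

/-- total weight of the tests -/
lemma tests_sum (N : ℕ) (hN : 1 ≤ N) :
    ∑ j : Finset (Fin N) × Finset (Fin N) × Bool,
      Real.exp (-(Real.log N * ((j.1.card : ℝ) + j.2.1.card + 1))) ≤ 15/N := by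
  have hN0 : (0:ℝ) < N := by exact_mod_cast hN
  have h1 : ∀ j : Finset (Fin N) × Finset (Fin N) × Bool,
      Real.exp (-(Real.log N * ((j.1.card : ℝ) + j.2.1.card + 1)))
      = (1/(N:ℝ))^(j.1.card) * ((1/(N:ℝ))^(j.2.1.card) * (1/(N:ℝ))) := by
    intro j
    have h2 : ∀ k : ℕ, (1/(N:ℝ))^k = Real.exp (-(Real.log N * k)) := by
      intro k
      rw [one_div, ← Real.exp_log (pow_pos (inv_pos.mpr hN0) k), Real.log_pow, Real.log_inv]
      congr 1; ring
    have h3 : (1/(N:ℝ)) = Real.exp (-(Real.log N)) := by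
      rw [Real.exp_neg, Real.exp_log hN0, one_div]
    rw [h2, h2]
    rw [h3]
    rw [← Real.exp_add, ← Real.exp_add]
    congr 1
    ring
  simp only [h1]
  rw [Fintype.sum_prod_type]
  simp only [Fintype.sum_prod_type, sum_const, card_univ, Fintype.card_bool]
  have h4 : ∑ X : Finset (Fin N), (1/(N:ℝ))^(X.card) = (1/(N:ℝ) + 1)^N := by
    have := Fintype.sum_pow_mul_eq_add_pow (Fin N) (1/(N:ℝ)) 1
    simp only [one_pow, mul_one, Fintype.card_fin] at this
    exact this
  have h5 : (1/(N:ℝ) + 1)^N ≤ Real.exp 1 := by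
    calc (1/(N:ℝ) + 1)^N ≤ (Real.exp (1/(N:ℝ)))^N :=
          pow_le_pow_left₀ (by positivity) (Real.add_one_le_exp _) N
      _ = Real.exp 1 := by
          rw [← Real.exp_nat_mul]
          congr 1
          field_simp
  have h6 : ∑ X : Finset (Fin N), ∑ Y : Finset (Fin N),
      (2:ℕ) • ((1/(N:ℝ))^(X.card) * ((1/(N:ℝ))^(Y.card) * (1/(N:ℝ))))
      = 2/(N:ℝ) * (((1/(N:ℝ) + 1)^N) * ((1/(N:ℝ) + 1)^N)) := by
    rw [← h4, sum_mul_sum, mul_sum]
    apply sum_congr rfl
    intro X _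
    rw [mul_sum]
    apply sum_congr rfl
    intro Y _
    rw [nsmul_eq_mul]
    push_cast
    ring
  rw [h6]
  have h7 : ((1/(N:ℝ) + 1)^N) * ((1/(N:ℝ) + 1)^N) ≤ 7.5 :=
    le_trans (mul_le_mul h5 h5 (by positivity) (Real.exp_pos _).le) e_sq_le
  calc 2/(N:ℝ) * (((1/(N:ℝ) + 1)^N) * ((1/(N:ℝ) + 1)^N)) ≤ 2/(N:ℝ) * 7.5 :=
        mul_le_mul_of_nonneg_left h7 (by positivity)
    _ = 15/N := by ring

lemma ev_log_small : ∀ᶠ N : ℕ in atTop, 100 * Real.log N ≤ Real.exp (Real.log N / 1000) := by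
  have h1 := (isLittleO_log_rpow_atTop (show (0:ℝ) < 1/1000 by norm_num)).bound
    (show (0:ℝ) < 1/100 by norm_num)
  have h2 := tendsto_natCast_atTop_atTop (R := ℝ) |>.eventually h1
  filter_upwards [h2, ev_ge 1] with N hN h1N
  have hN0 : (0:ℝ) < N := by linarith
  have hL : 0 ≤ Real.log N := Real.log_nonneg h1N
  rw [Real.norm_eq_abs, Real.norm_eq_abs, abs_of_nonneg hL,
    abs_of_nonneg (Real.rpow_nonneg hN0.le _), Real.rpow_def_of_pos hN0] at hN
  have e : Real.log N * (1/1000) = Real.log N / 1000 := by ring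
  rw [e] at hN
  linarith

theorem lower_bound : ∀ᶠ N : ℕ in atTop, ∀ q : ℕ, (q:ℝ) ≤ (3/5) * Real.log N →
    1 - 15/N ≤ pN N q := by
  filter_upwards [ev_log_small, ev_ge 1000, ev_log_ge 1000] with N hsmall hN hlog
  intro q hq
  have hNn : 1000 ≤ N := by exact_mod_cast hN
  have hN0 : (0:ℝ) < N := by linarith
  set L : ℝ := Real.log N with hL
  set y : ℝ := Real.exp (L/1000) with hy
  have hy2 : 2 ≤ y := by
    have := Real.add_one_le_exp (L/1000)
    have : (1:ℝ) ≤ L/1000 := by linarith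
    linarith
  have hypow : ∀ k : ℕ, y^k = Real.exp (k * (L/1000)) := by
    intro k; rw [hy, ← Real.exp_nat_mul]
  set S : ℕ := Fintype.card (Edge N) with hS
  have hNS : (N:ℝ) ≤ S := card_edge_ge N (by omega)
  have hS1000 : (1000:ℝ) ≤ S := by linarith
  set r0 : ℕ := 3*S/7 with hr0def
  have hSn : 1000 ≤ S := by exact_mod_cast hS1000
  have hr0 : 2*r0 ≤ S := by omega
  have hr0' : 2*r0 < S := by omega
  have hr1 : 1 ≤ r0 := by omega
  have hr7 : (7:ℝ)*r0 ≤ 3*S := by
    have : 7*r0 ≤ 3*S := by omega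
    exact_mod_cast this
  have hr7' : (3:ℝ)*S ≤ 7*r0 + 6 := by
    have : 3*S ≤ 7*r0 + 6 := by omega
    exact_mod_cast this
  have hr0R : (0:ℝ) < r0 := by exact_mod_cast hr1
  have hS0 : (0:ℝ) < S := by linarith
  -- level
  have hlev : lev S r0 ≤ 1 := by
    have h1 := lev_ub S r0 hr0'
    have h2 : Real.log ((S:ℝ)/((S:ℝ) - 2*r0)) ≤ Real.log 7 := by
      have h3 : (0:ℝ) < (S:ℝ) - 2*r0 := by linarith
      apply Real.log_le_log (by positivity)
      rw [div_le_iff₀ h3]
      linarith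
    have := log_seven
    linarith
  -- energy
  have hE : ((S : ℝ) - 2*r0) * Real.log (2*(S : ℝ)/r0)
      + ∑ s ∈ range r0, (Real.log 2 + Real.log (2*(S : ℝ)/((s:ℝ)+1))) ≤ 1.62 * (S : ℝ) := by
    have h1 := sum_log_bound S hS0 r0 hr1
    have h2 : Real.log (2*(S:ℝ)/r0) ≤ 2 * Real.log 2 + 0.17 := by
      have h3 : 2*(S:ℝ)/r0 ≤ 2 * 2 * 1.17 := by
        rw [div_le_iff₀ hr0R]
        linarith
      have h4 : Real.log (2*(S:ℝ)/r0) ≤ Real.log (2*2*1.17) :=
        Real.log_le_log (by positivity) h3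
      have h5 : Real.log (2*2*1.17) = Real.log 2 + Real.log 2 + Real.log 1.17 := by
        rw [Real.log_mul (by norm_num) (by norm_num), Real.log_mul (by norm_num) (by norm_num)]
      have h6 := Real.log_le_sub_one_of_pos (show (0:ℝ) < 1.17 by norm_num)
      rw [h5] at h4
      linarith
    have h7 := Real.log_two_lt_d9
    have h7' := Real.log_two_gt_d9
    have h8 : Real.log (2*(S:ℝ)/r0) ≤ 1.5563 := by linarith
    have h9 : ((S:ℝ) - r0) * Real.log (2*(S:ℝ)/r0) ≤ ((S:ℝ) - r0) * 1.5563 := by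
      apply mul_le_mul_of_nonneg_left h8
      linarith
    have h10 : (r0:ℝ) * Real.log 2 ≤ r0 * 0.6931471808 :=
      mul_le_mul_of_nonneg_left h7.le hr0R.le
    nlinarith
  -- parameters
  set sig : ℝ := 1/y^4 with hsig
  have hsig0 : 0 < sig := by positivity
  have hy4 : (16:ℝ) ≤ y^4 := by
    calc (16:ℝ) = 2^4 := by norm_num
      _ ≤ y^4 := pow_le_pow_left₀ (by norm_num) hy2 4
  have hsig1 : sig ≤ 1/2 := by
    rw [hsig, div_le_iff₀ (by positivity)]
    linarith
  set κ : ℝ := y^16/10 with hκ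
  have hL0 : 0 ≤ L := by linarith
  have hκ2 : 2 ≤ κ := by
    have : (65536:ℝ) ≤ y^16 := by
      calc (65536:ℝ) = 2^16 := by norm_num
        _ ≤ y^16 := pow_le_pow_left₀ (by norm_num) hy2 16
    rw [hκ]; linarith
  have hNy : (N:ℝ) = y^1000 := by
    rw [hypow]
    have : ((1000:ℕ):ℝ) * (L/1000) = L := by push_cast; ring
    rw [this, hL, Real.exp_log hN0]
  have hκ3 : ∀ n : ℕ, ((1.64:ℝ) - 1.62) * (N:ℝ)^2 ≤ 1.64 * (n:ℝ)^2 →
      κ ≤ (n : ℝ) * Real.exp (-(1.64 * q)) := by
    intro n hn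
    have h1 : (N:ℝ)/10 ≤ n := by
      have h2 : (0:ℝ) ≤ n := Nat.cast_nonneg n
      nlinarith
    have h3 : Real.exp (-(984 * (L/1000))) ≤ Real.exp (-(1.64 * q)) := by
      apply Real.exp_le_exp.mpr
      linarith
    calc κ = ((N:ℝ)/10) * Real.exp (-(984 * (L/1000))) := by
          rw [hκ, hNy, hypow, hypow]
          have : Real.exp (((1000:ℕ):ℝ) * (L/1000)) / 10 * Real.exp (-(984 * (L/1000)))
              = Real.exp (((1000:ℕ):ℝ) * (L/1000) + -(984 * (L/1000))) / 10 := by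
            rw [Real.exp_add]; ring
          rw [this]
          congr 2
          push_cast
          ring
      _ ≤ (n:ℝ) * Real.exp (-(1.64 * q)) :=
          mul_le_mul h1 h3 (Real.exp_pos _).le (Nat.cast_nonneg n)
  have hη : (q : ℝ) * (2 * (2*sig) + 4 * (L/(2*sig) + 1) / κ) ≤ 1/4 := by
    have hLy : L ≤ y/100 := by linarith
    have hqy : (q:ℝ) ≤ y/100 := by linarith
    have h1 : 2 * (2*sig) = 4/y^4 := by rw [hsig]; ring
    have h2 : L/(2*sig) + 1 ≤ y^5 := by
      have e : L/(2*sig) = L*y^4/2 := by rw [hsig]; field_simp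
      rw [e]
      have h3 : L*y^4 ≤ y/100*y^4 := mul_le_mul_of_nonneg_right hLy (by positivity)
      have h4 : y/100*y^4 = y^5/100 := by ring
      have h5 : (32:ℝ) ≤ y^5 := by
        calc (32:ℝ) = 2^5 := by norm_num
          _ ≤ y^5 := pow_le_pow_left₀ (by norm_num) hy2 5
      linarith
    have h3 : 4 * (L/(2*sig) + 1) / κ ≤ 40/y^4 := by
      rw [hκ, div_le_div_iff₀ (by positivity) (by positivity)]
      have h4 : 4 * (L/(2*sig) + 1) * y^4 ≤ 4 * y^5 * y^4 :=
        mul_le_mul_of_nonneg_right (by linarith) (by positivity)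
      have h5 : y^9 ≤ y^16 := pow_le_pow_right₀ (by linarith) (by norm_num)
      have h6 : 4 * y^5 * y^4 = 4 * y^9 := by ring
      linarith
    have h4 : 2 * (2*sig) + 4 * (L/(2*sig) + 1) / κ ≤ 44/y^4 := by
      rw [h1]
      have : (44:ℝ)/y^4 = 4/y^4 + 40/y^4 := by ring
      rw [this]
      linarith
    calc (q : ℝ) * (2 * (2*sig) + 4 * (L/(2*sig) + 1) / κ) ≤ (y/100) * (44/y^4) := by
          apply mul_le_mul hqy h4 _ (by positivity)
          positivity
      _ ≤ 1/4 := by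
          have h5 : (8:ℝ) ≤ y^3 := by
            calc (8:ℝ) = 2^3 := by norm_num
              _ ≤ y^3 := pow_le_pow_left₀ (by norm_num) hy2 3
          have h6 : (y/100) * (44/y^4) = 44/100/y^3 := by field_simp
          rw [h6, div_le_iff₀ (by positivity)]
          linarith
  -- conclusion for a strategy
  unfold pN
  have : Nonempty (Strategy (Edge N)) := ⟨minStrat (cls 1)⟩
  apply le_ciInf
  intro β
  have hmain := le_prob (univ : Finset (Finset (Fin N) × Finset (Fin N) × Bool))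
    (fun j => atest j.1 j.2.1) (fun j => if j.2.2 then sig else -sig)
    (fun j => L * ((j.1.card : ℝ) + j.2.1.card + 1))
    (fun j e => atest_mem j.1 j.2.1 e)
    (fun j => by
      split_ifs
      · rw [abs_of_pos hsig0]; exact hsig1
      · rw [abs_neg, abs_of_pos hsig0]; exact hsig1)
    (HasClique N q) (hasClique_mono N q) β r0 hr0
    (by
      intro M U W hI htest
      apply good_end N q r0 M U W hI L sig 1.62 1.64 κ hL0 hsig0 hr0 hr1 hlev _ hE
        (by norm_num) (by norm_num) hκ2 hκ3 hη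
      intro X Y s hs
      rcases hs with rfl | rfl
      · have := htest (X, Y, true) (mem_univ _)
        simpa using this
      · have := htest (X, Y, false) (mem_univ _)
        simpa using this)
    r0 0 [] ∅ univ (fun _ => 0) S (by omega) (by omega) inv_start
  refine le_trans ?_ hmain
  have hZ : ∀ j : Finset (Fin N) × Finset (Fin N) × Bool,
      Real.exp (-(L * ((j.1.card : ℝ) + j.2.1.card + 1))) *
        Zf (atest j.1 j.2.1) (if j.2.2 then sig else -sig) ∅ (fun _ => 0)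
      = Real.exp (-(L * ((j.1.card : ℝ) + j.2.1.card + 1))) := by
    intro j
    unfold Zf
    simp
  simp only [hZ]
  have := tests_sum N (by omega)
  linarith

end Pool.Agent.H230R2.RM
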