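import Pool.Agent.H230R2.RM.Value
import Pool.Agent.H230R2.RM.Bounds
import Pool.Agent.H230R2.RM.Count

set_option autoImplicit false

namespace Pool.Agent.H230R2.RM

open Finset Filter

lemma pN_le (N q : ℕ) (β : Strategy (Edge N)) :
    pN N q ≤ prob (HasClique N q) β (Fintype.card (Edge N)) [] ∅ Finset.univ := by
  unfold pN
  apply ciInf_le
  refine ⟨0, ?_⟩
  rintro x ⟨β, rfl⟩
  exact prob_nonneg _ _ _ _ _ _

/-- fraction of the classes up to `i` -/
noncomputable def fr (h i : ℕ) : ℝ := (2*(i:ℝ)+1)/(2*(h:ℝ)+1)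

lemma fr_lb (h i : ℕ) : 1/(2*(h:ℝ)+1) ≤ fr h i := by
  unfold fr
  apply div_le_div_of_nonneg_right _ (by positivity)
  have : (0:ℝ) ≤ i := Nat.cast_nonneg i
  linarith

lemma fr_ub (h i : ℕ) (hi : i < h) : fr h i ≤ 1 - 2/(2*(h:ℝ)+1) := by
  unfold fr
  have h1 : (i:ℝ) + 1 ≤ h := by exact_mod_cast hi
  rw [div_le_iff₀ (by positivity)]
  field_simp
  linarith

lemma fr_le_exp (h i : ℕ) (hi : i ≤ h) : fr h i ≤ Real.exp (-(g h i)) := by
  have h1 := g_le_log h i hi
  have hpos : 0 < (2*(h:ℝ)+1)/(2*(i:ℝ)+1) := by positivity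
  have h2 : fr h i = Real.exp (-(Real.log ((2*(h:ℝ)+1)/(2*(i:ℝ)+1)))) := by
    rw [Real.exp_neg, Real.exp_log hpos, inv_div]
    rfl
  rw [h2]
  exact Real.exp_le_exp.mpr (by linarith)

/-- the finite bound -/
theorem finite_bound (N q h : ℕ) (hh : 1 ≤ h) (γ : ℝ) (hγ : 0 < γ)
    (hγ2 : γ < 1/(2*(h:ℝ)+1))
    (hc1 : (2*(h:ℝ)+1) ≤ (Fintype.card (Edge N) : ℝ))
    (hc2 : 2*(h:ℝ)+2 ≤ γ * ((N:ℝ)-1))
    (hc3 : 1/((2/(2*(h:ℝ)+1) - 2*γ) * γ) ≤ (Fintype.card (Edge N) : ℝ)) :
    pN N q ≤ (N:ℝ)^q * Real.exp (-((1/2) * ((q:ℝ)^2 * (G h/(2*h+1)) - q * g h 0))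
        + 3*γ*(2*h+1) * ((q:ℝ)^2/2))
      + ∑ i ∈ range h, Real.exp (-(((1 - fr h i - γ)/(1 - fr h i - 2*γ) - 1
          - Real.log ((1 - fr h i - γ)/(1 - fr h i - 2*γ)))
          * (⌊(1 - fr h i - 2*γ)^2 * (Fintype.card (Edge N) : ℝ)⌋₊ : ℝ))) := by
  classical
  set S : ℕ := Fintype.card (Edge N) with hS
  set K : ℝ := 2*(h:ℝ)+1 with hK
  have hK0 : 0 < K := by positivity
  have hS0 : (0:ℝ) < S := lt_of_lt_of_le hK0 hc1
  set a : ℕ → ℝ := fun i => 1 - fr h i - 2*γ with ha
  set r : ℕ → ℝ := fun i => 1 - fr h i - γ with hr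
  have hamin : 0 < 2/K - 2*γ := by
    have : 2/K = 2*(1/K) := by ring
    rw [this]; linarith
  have ha0 : ∀ i, i < h → 2/K - 2*γ ≤ a i := by
    intro i hi
    have := fr_ub h i hi
    simp only [ha]
    linarith
  have hapos : ∀ i, i < h → 0 < a i := fun i hi => lt_of_lt_of_le hamin (ha0 i hi)
  have har : ∀ i, a i < r i := by intro i; simp only [ha, hr]; linarith
  have ha1 : ∀ i, a i ≤ 1 - 1/K := by
    intro i
    have := fr_lb h i
    simp only [ha]
    linarith
  set D : ℕ → ℕ := fun i => if i < h then ⌊(a i)^2 * (S:ℝ)⌋₊ + 1 else 0 with hD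
  set lam : ℕ → ℝ := fun i => if i < h then a i / r i else 1 with hlam
  have hfloor : ∀ i, i < h → ⌊(a i)^2 * (S:ℝ)⌋₊ + 1 ≤ S := by
    intro i hi
    have h1 : (a i)^2 * (S:ℝ) ≤ S - 1 := by
      have h2 : (a i)^2 ≤ 1 - 1/K := by
        have h3 : (a i)^2 ≤ a i := by
          have := hapos i hi
          have h4 := ha1 i
          have h5 : 0 < 1/K := by positivity
          nlinarith
        exact le_trans h3 (ha1 i)
      have h6 : (a i)^2 * (S:ℝ) ≤ (1 - 1/K) * S := mul_le_mul_of_nonneg_right h2 hS0.le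
      have h7 : 1 ≤ (1/K) * S := by
        rw [one_div, inv_mul_eq_div, le_div_iff₀ hK0]; linarith
      linarith
    have h8 : (⌊(a i)^2 * (S:ℝ)⌋₊ : ℝ) ≤ (S:ℝ) - 1 :=
      le_trans (Nat.floor_le (by positivity)) h1
    have : ((⌊(a i)^2 * (S:ℝ)⌋₊ + 1 : ℕ) : ℝ) ≤ S := by push_cast; linarith
    exact_mod_cast this
  have hlam0 : ∀ i, 0 < lam i := by
    intro i
    simp only [hlam]
    split_ifs with hi
    · exact div_pos (hapos i hi) (lt_trans (hapos i hi) (har i))
    · norm_num
  have hlam1 : ∀ i, lam i ≤ 1 := by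
    intro i
    simp only [hlam]
    split_ifs with hi
    · rw [div_le_one (lt_trans (hapos i hi) (har i))]; exact (har i).le
    · norm_num
  have hDH : ∀ i, h ≤ i → D i = 0 := by
    intro i hi
    simp only [hD]
    rw [if_neg (by omega)]
  set 𝒜 : Finset (Finset (Edge N)) :=
    (powersetCard q (univ : Finset (Fin N))).image pairs with h𝒜
  have hP : ∀ M, HasClique N q M → ∃ A ∈ 𝒜, A ⊆ M := by
    rintro M ⟨s, hs, hM⟩
    refine ⟨pairs s, ?_, ?_⟩
    · rw [h𝒜, mem_image]
      exact ⟨s, by rw [mem_powersetCard]; exact ⟨subset_univ _, hs⟩, rfl⟩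
    · intro e he
      rw [pairs, mem_filter] at he
      exact hM e he.2.1 he.2.2
  have hmain := prob_le (HasClique N q) (cls h) D lam h 𝒜 hP hlam0 hlam1 hDH S [] ∅
    (univ : Finset (Edge N)) (by rw [card_univ]) (disjoint_empty_left _)
  refine le_trans (pN_le N q (minStrat (cls h))) (le_trans hmain ?_)
  apply add_le_add
  · -- the first potential
    have hw : ∀ e : Edge N, w (D (cls h e)) 0 S ≤ Real.exp (-(g h (cls h e)) + 3*γ*K) := by
      intro e
      set i := cls h e with hi
      have hpos3 : 0 ≤ 3*γ*K := by positivity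
      by_cases hih : i < h
      · have h1 : w (D i) 0 S ≤ 1 - a i + 1/(a i * S) := by
          simp only [hD]
          rw [if_pos hih]
          exact w_init S (a i) (hapos i hih) (hfloor i hih)
        have h2 : 1/(a i * S) ≤ γ := by
          rw [div_le_iff₀ (by have := hapos i hih; positivity)]
          have h3 : 1 ≤ (2/K - 2*γ) * γ * S := by
            have := (div_le_iff₀ (by positivity : 0 < (2/K - 2*γ) * γ)).mp hc3
            linarith
          have h4 : (2/K - 2*γ) * γ * S ≤ γ * (a i * S) := by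
            have := mul_le_mul_of_nonneg_right (ha0 i hih) (by positivity : 0 ≤ γ * S)
            nlinarith
          linarith
        have h5 : w (D i) 0 S ≤ fr h i + 3*γ := by
          simp only [ha] at h1 h2
          linarith
        have h6 : fr h i + 3*γ ≤ fr h i * (1 + 3*γ*K) := by
          have h7 : 1 ≤ fr h i * K := by
            have := fr_lb h i
            rw [div_le_iff₀ hK0] at this
            exact this
          nlinarith
        have h8 : 1 + 3*γ*K ≤ Real.exp (3*γ*K) := by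
          have := Real.add_one_le_exp (3*γ*K); linarith
        have h9 := fr_le_exp h i hih.le
        have h10 : 0 ≤ fr h i := by unfold fr; positivity
        calc w (D i) 0 S ≤ fr h i * (1 + 3*γ*K) := le_trans h5 h6
          _ ≤ Real.exp (-(g h i)) * Real.exp (3*γ*K) :=
              mul_le_mul h9 h8 (by positivity) (Real.exp_pos _).le
          _ = _ := by rw [← Real.exp_add]
      · rw [g_zero_of_le h i (by omega)]
        have h1 : w (D i) 0 S ≤ 1 := (w_mem _ 0 le_rfl zero_le_one _).2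
        have h2 : 1 ≤ Real.exp (-(0:ℝ) + 3*γ*K) := by
          rw [← Real.exp_zero]
          apply Real.exp_le_exp.mpr
          linarith
        exact le_trans h1 h2
    have hterm : ∀ A ∈ 𝒜, ∏ e ∈ A, w (D (cls h e)) 0 (univ : Finset (Edge N)).card
        ≤ Real.exp (-((1/2) * ((q:ℝ)^2 * (G h/K) - q * g h 0)) + 3*γ*K * ((q:ℝ)^2/2)) := by
      intro A hA
      rw [h𝒜, mem_image] at hA
      obtain ⟨s, hs, rfl⟩ := hA
      rw [mem_powersetCard] at hs
      rw [card_univ]
      have h1 : ∏ e ∈ pairs s, w (D (cls h e)) 0 (Fintype.card (Edge N))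
          ≤ ∏ e ∈ pairs s, Real.exp (-(g h (cls h e)) + 3*γ*K) := by
        apply Finset.prod_le_prod
        · intro e _
          exact (w_mem _ 0 le_rfl zero_le_one _).1
        · intro e _
          exact hw e
      refine le_trans h1 ?_
      rw [← Real.exp_sum]
      apply Real.exp_le_exp.mpr
      rw [sum_add_distrib, sum_neg_distrib, sum_const, nsmul_eq_mul]
      have h2 := psd_ineq h hh s (fun x : Fin N => ((x.val : ℕ) : ZMod (2*h+1)))
      have h3 := sum_pairs s (fun x y => g h (cd ((x.val : ZMod (2*h+1)))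
        ((y.val : ZMod (2*h+1))))) (fun x y => by rw [cd_comm])
      have h4 : ∑ e ∈ pairs s, g h (cd ((e.1.1.val : ZMod (2*h+1)))
        ((e.1.2.val : ZMod (2*h+1)))) = ∑ e ∈ pairs s, g h (cls h e) := rfl
      rw [h4] at h3
      have h5 : ∑ x ∈ s, g h (cd ((x.val : ZMod (2*h+1))) ((x.val : ZMod (2*h+1))))
          = s.card * g h 0 := by
        have : ∀ x ∈ s, g h (cd ((x.val : ZMod (2*h+1))) ((x.val : ZMod (2*h+1)))) = g h 0 := by
          intro x _; rw [cd_self]
        rw [sum_congr rfl this, sum_const, nsmul_eq_mul]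
      rw [h3, h5, hs.2] at h2
      have h6 := card_pairs s
      rw [hs.2] at h6
      have h7 : ((pairs s).card : ℝ) ≤ (q:ℝ)^2/2 := by
        have : (0:ℝ) ≤ q := Nat.cast_nonneg q
        linarith
      have h8 : ((pairs s).card : ℝ) * (3*γ*K) ≤ 3*γ*K * ((q:ℝ)^2/2) := by
        rw [mul_comm]
        exact mul_le_mul_of_nonneg_left h7 (by positivity)
      have h9 : (1/2) * ((q:ℝ)^2 * (G h/K) - q * g h 0) ≤ ∑ e ∈ pairs s, g h (cls h e) := by
        linarith
      linarith
    have hcard : ((𝒜.card : ℕ) : ℝ) ≤ (N:ℝ)^q := by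
      have h1 : 𝒜.card ≤ N.choose q := by
        calc 𝒜.card ≤ (powersetCard q (univ : Finset (Fin N))).card := card_image_le
          _ = _ := by rw [card_powersetCard, card_univ, Fintype.card_fin]
      have h2 : N.choose q ≤ N^q := Nat.choose_le_pow N q
      exact_mod_cast le_trans h1 h2
    calc psi (cls h) D 𝒜 ∅ univ ≤ ∑ _A ∈ 𝒜,
          Real.exp (-((1/2) * ((q:ℝ)^2 * (G h/K) - q * g h 0)) + 3*γ*K * ((q:ℝ)^2/2)) := by
          rw [psi_start]
          exact sum_le_sum hterm
      _ ≤ _ := by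
          rw [sum_const, nsmul_eq_mul]
          exact mul_le_mul_of_nonneg_right hcard (Real.exp_pos _).le
  · -- the second potential
    apply sum_le_sum
    intro i hi
    rw [mem_range] at hi
    unfold phi
    split_ifs
    · have hR : r i * (S:ℝ) ≤ (((univ : Finset (Edge N)).filter (fun e => i < cls h e)).card : ℝ) := by
        have h1 := card_class h i N
        have h2 : ((univ.filter (fun e : Edge N => cls h e ≤ i)).card : ℝ)
            + (((univ : Finset (Edge N)).filter (fun e => i < cls h e)).card : ℝ) = S := by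
          have h3 := card_filter_add_card_filter_not (s := (univ : Finset (Edge N)))
            (fun e : Edge N => cls h e ≤ i)
          have h4 : (univ.filter (fun e : Edge N => ¬ cls h e ≤ i))
              = ((univ : Finset (Edge N)).filter (fun e => i < cls h e)) := by
            apply filter_congr; intro e _; omega
          rw [h4, card_univ] at h3
          exact_mod_cast h3
        have h5 := card_edge N
        have hi' : (i:ℝ) + 1 ≤ h := by exact_mod_cast hi
        have h6 : ((2*(i:ℝ)+1) * ((N:ℝ) / (2*h+1) + 1)) ≤ (fr h i + γ) * ((N:ℝ) - 1) := by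
          have h7 : (2*(i:ℝ)+1) * ((N:ℝ) / (2*h+1)) = fr h i * N := by
            unfold fr; ring
          have h8 : fr h i ≤ 1 := by
            have := fr_ub h i hi
            have : 0 < 2/(2*(h:ℝ)+1) := by positivity
            linarith
          nlinarith
        have h9 : (N:ℝ) * ((2*(i:ℝ)+1) * ((N:ℝ) / (2*h+1) + 1))
            ≤ N * ((fr h i + γ) * ((N:ℝ) - 1)) :=
          mul_le_mul_of_nonneg_left h6 (Nat.cast_nonneg N)
        simp only [hr]
        nlinarith
      have h3 := phi_init S ((univ : Finset (Edge N)).filter (fun e => i < cls h e)).card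
        (a i) (r i) (hapos i hi) (har i) (hfloor i hi) hR
      have hDi : D i = ⌊(a i)^2 * (S:ℝ)⌋₊ + 1 := by simp only [hD]; rw [if_pos hi]
      have hli : lam i = a i / r i := by simp only [hlam]; rw [if_pos hi]
      rw [hDi, hli, card_univ, Nat.add_sub_cancel]
      exact h3
    · exact (Real.exp_pos _).le

end Pool.Agent.H230R2.RM
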