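import Pool.Agent.H230R2.RM.Value

set_option autoImplicit false

namespace Pool.Agent.H230R2.RM

open Finset

section

variable {α : Type} [Fintype α]

open Classical

omit [Fintype α] in
lemma prob_eq_one (P : Finset α → Prop) (hmono : ∀ M M', P M → M ⊆ M' → P M')
    (β : Strategy α) (n : ℕ) :
    ∀ (h : List α) (M U : Finset α), P M → prob P β n h M U = 1 := by
  induction n with
  | zero => intro h M U hM; simp only [prob]; rw [if_pos hM]
  | succ n ih =>
    intro h M U hM
    simp only [prob]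
    by_cases hU : U = ∅
    · rw [if_pos hU, if_pos hM]
    · rw [if_neg hU]
      have hc : (0:ℝ) < U.card := by
        exact_mod_cast (nonempty_iff_ne_empty.mpr hU).card_pos
      have h1 : ∀ e ∈ U, (if hne : (U.erase e).Nonempty then
          prob P β n ((β (e :: h) (U.erase e) hne).1 :: e :: h) (insert e M)
            ((U.erase e).erase (β (e :: h) (U.erase e) hne).1)
          else prob P β n (e :: h) (insert e M) ∅) = 1 := by
        intro e _
        have hM' : P (insert e M) := hmono M _ hM (subset_insert _ _)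
        split_ifs
        · exact ih _ _ _ hM'
        · exact ih _ _ _ hM'
      rw [sum_congr rfl h1, sum_const, nsmul_eq_mul, mul_one, div_self hc.ne']

/-- the indicator function of a finite set -/
noncomputable def ind (M : Finset α) (e : α) : ℝ := if e ∈ M then 1 else 0

omit [Fintype α] in
lemma ind_mem (M : Finset α) (e : α) (h : e ∈ M) : ind M e = 1 := if_pos h

omit [Fintype α] in
lemma ind_notMem (M : Finset α) (e : α) (h : e ∉ M) : ind M e = 0 := if_neg h

omit [Fintype α] in
lemma ind_range (M : Finset α) (e : α) : 0 ≤ ind M e ∧ ind M e ≤ 1 := by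
  unfold ind; split_ifs <;> norm_num

lemma sum_ind (M : Finset α) (a : α → ℝ) : ∑ e, a e * ind M e = ∑ e ∈ M, a e := by
  unfold ind
  simp only [mul_ite, mul_one, mul_zero]
  rw [← sum_filter]
  apply sum_congr _ (fun _ _ => rfl)
  ext e; simp

/-- exponential test functions -/
noncomputable def Zf (a : α → ℝ) (s : ℝ) (M : Finset α) (W : α → ℝ) : ℝ :=
  Real.exp (s * (∑ e ∈ M, a e - ∑ e, a e * W e) - 2 * s^2 * ∑ e, a e * W e)

/-- the compensator after one more move of Maker -/
noncomputable def upd (U : Finset α) (W : α → ℝ) : α → ℝ :=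
  fun e => W e + if e ∈ U then 1/(U.card:ℝ) else 0

lemma Zf_step (a : α → ℝ) (s : ℝ) (M U : Finset α) (W : α → ℝ) (hU : U.Nonempty)
    (hMU : Disjoint M U) (ha : ∀ e, 0 ≤ a e ∧ a e ≤ 2) (hs : |s| ≤ 1/2) :
    (∑ f ∈ U, Zf a s (insert f M) (upd U W)) / (U.card:ℝ) ≤ Zf a s M W := by
  have hc : (0:ℝ) < U.card := by exact_mod_cast hU.card_pos
  set ā : ℝ := (∑ e ∈ U, a e) / (U.card:ℝ) with hā
  have hā0 : 0 ≤ ā := div_nonneg (sum_nonneg fun e _ => (ha e).1) hc.le
  have h1 : ∑ e, a e * upd U W e = ∑ e, a e * W e + ā := by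
    unfold upd
    have : ∀ e, a e * (W e + if e ∈ U then 1/(U.card:ℝ) else 0)
        = a e * W e + (if e ∈ U then a e * (1/(U.card:ℝ)) else 0) := by
      intro e
      split_ifs <;> ring
    simp only [this]
    rw [sum_add_distrib]
    congr 1
    rw [← sum_filter]
    have : univ.filter (fun e => e ∈ U) = U := by ext e; simp
    rw [this, ← sum_mul, hā]
    ring
  have h2 : ∀ f ∈ U, Zf a s (insert f M) (upd U W)
      = Zf a s M W * (Real.exp (-((s + 2*s^2) * ā)) * Real.exp (s * a f)) := by
    intro f hf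
    have hfM : f ∉ M := fun h => disjoint_left.mp hMU h hf
    unfold Zf
    rw [h1, sum_insert hfM, ← Real.exp_add, ← Real.exp_add]
    congr 1
    ring
  have h3 : ∀ f ∈ U, Real.exp (s * a f) ≤ 1 + (s + 2*s^2) * a f := by
    intro f _
    obtain ⟨ha0, ha2⟩ := ha f
    have hx : |s * a f| ≤ 1 := by
      rw [abs_mul, abs_of_nonneg ha0]
      have : |s| * a f ≤ 1/2 * 2 := mul_le_mul hs ha2 ha0 (by norm_num)
      linarith
    have := Real.abs_exp_sub_one_sub_id_le hx
    have h4 := (abs_le.mp this).2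
    have h5 : (s * a f)^2 ≤ 2 * s^2 * a f := by
      have : (s * a f)^2 = s^2 * (a f * a f) := by ring
      rw [this]
      have h6 : a f * a f ≤ 2 * a f := mul_le_mul_of_nonneg_right ha2 ha0
      have := mul_le_mul_of_nonneg_left h6 (sq_nonneg s)
      linarith
    linarith
  have h4 : (∑ f ∈ U, Real.exp (s * a f)) / (U.card:ℝ) ≤ Real.exp ((s + 2*s^2) * ā) := by
    have h5 : (∑ f ∈ U, Real.exp (s * a f)) / (U.card:ℝ) ≤ 1 + (s + 2*s^2) * ā := by
      rw [div_le_iff₀ hc]
      refine le_trans (sum_le_sum h3) (le_of_eq ?_)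
      rw [sum_add_distrib, sum_const, nsmul_eq_mul, ← mul_sum, hā]
      field_simp
    have := Real.add_one_le_exp ((s + 2*s^2) * ā)
    linarith
  rw [sum_congr rfl h2, ← mul_sum, ← mul_sum, mul_div_assoc, mul_div_assoc]
  have hZ : 0 ≤ Zf a s M W := (Real.exp_pos _).le
  calc Zf a s M W * (Real.exp (-((s + 2*s^2) * ā)) * ((∑ f ∈ U, Real.exp (s * a f)) / (U.card:ℝ)))
      ≤ Zf a s M W * (Real.exp (-((s + 2*s^2) * ā)) * Real.exp ((s + 2*s^2) * ā)) := by
        apply mul_le_mul_of_nonneg_left _ hZ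
        exact mul_le_mul_of_nonneg_left h4 (Real.exp_pos _).le
    _ = Zf a s M W := by
        rw [← Real.exp_add, neg_add_cancel, Real.exp_zero, mul_one]

/-- the value of the compensator of an edge that is unclaimed during `r` rounds -/
noncomputable def lev (S : ℕ) (r : ℕ) : ℝ := ∑ s ∈ range r, 1/((S:ℝ) - 2*s)

lemma lev_succ (S r : ℕ) : lev S (r+1) = lev S r + 1/((S:ℝ) - 2*r) := by
  unfold lev; rw [sum_range_succ]

lemma lev_lb (S r : ℕ) (h : 2*r ≤ S) : (r:ℝ)/S ≤ lev S r := by
  induction r with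
  | zero => simp [lev]
  | succ r ih =>
    have hS : (0:ℝ) < (S:ℝ) - 2*r := by
      have : ((2*(r+1) : ℕ):ℝ) ≤ S := by exact_mod_cast h
      push_cast at this; linarith
    have hS0 : (0:ℝ) < S := by
      have : (0:ℝ) ≤ r := Nat.cast_nonneg r
      linarith
    rw [lev_succ]
    have h1 := ih (by omega)
    have h2 : 1/(S:ℝ) ≤ 1/((S:ℝ) - 2*r) := by
      apply one_div_le_one_div_of_le hS
      have : (0:ℝ) ≤ r := Nat.cast_nonneg r
      linarith
    push_cast
    rw [add_div]
    linarith

lemma lev_ub (S r : ℕ) (h : 2*r < S) : lev S r ≤ 1/2 * Real.log ((S:ℝ)/((S:ℝ) - 2*r)) := by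
  induction r with
  | zero =>
    have : (0:ℝ) < S := by exact_mod_cast (by omega : 0 < S)
    simp [lev, div_self this.ne']
  | succ r ih =>
    have hS : (0:ℝ) < (S:ℝ) - 2*((r+1 : ℕ):ℝ) := by
      have : ((2*(r+1) : ℕ):ℝ) < S := by exact_mod_cast h
      push_cast at this ⊢; linarith
    have hS1 : (0:ℝ) < (S:ℝ) - 2*r := by push_cast at hS; linarith
    have hS0 : (0:ℝ) < S := by
      have : (0:ℝ) ≤ r := Nat.cast_nonneg r
      linarith
    rw [lev_succ]
    have h1 := ih (by omega)
    have h2 : Real.log ((S:ℝ)/((S:ℝ) - 2*((r+1 : ℕ):ℝ)))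
        = Real.log ((S:ℝ)/((S:ℝ) - 2*r))
          - Real.log (((S:ℝ) - 2*((r+1 : ℕ):ℝ))/((S:ℝ) - 2*r)) := by
      rw [← Real.log_div (by positivity) (by positivity)]
      congr 1
      field_simp
    rw [h2]
    have h3 := Real.log_le_sub_one_of_pos
      (show 0 < ((S:ℝ) - 2*((r+1 : ℕ):ℝ))/((S:ℝ) - 2*r) by positivity)
    have h4 : ((S:ℝ) - 2*((r+1 : ℕ):ℝ))/((S:ℝ) - 2*r) - 1 = -(2 * (1/((S:ℝ) - 2*r))) := by
      push_cast
      field_simp
      ring
    rw [h4] at h3
    linarith

lemma lev_nonneg (S r : ℕ) (h : 2*r ≤ S) : 0 ≤ lev S r :=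
  le_trans (by positivity) (lev_lb S r h)

/-- the invariant after `r` rounds -/
structure Inv (r : ℕ) (M U : Finset α) (W : α → ℝ) : Prop where
  disj : Disjoint M U
  card : U.card + 2*r = Fintype.card α
  onU : ∀ e ∈ U, W e = lev (Fintype.card α) r
  nonneg : ∀ e, 0 ≤ W e
  le : ∀ e, W e ≤ lev (Fintype.card α) r
  pos : ∀ e, e ∉ U → 0 < W e
  energy : ∑ e ∈ Uᶜ, -Real.log ((ind M e + W e)/2)
    ≤ ∑ s ∈ range r, (Real.log 2 + Real.log (2*(Fintype.card α : ℝ)/((s:ℝ)+1)))

lemma inv_start : Inv (α := α) 0 ∅ univ (fun _ => 0) where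
  disj := disjoint_empty_left _
  card := by rw [card_univ]; omega
  onU := by intro e _; simp [lev]
  nonneg := fun _ => le_rfl
  le := by intro e; simp [lev]
  pos := by intro e he; exact absurd (mem_univ e) he
  energy := by simp

lemma inv_step (r : ℕ) (M U : Finset α) (W : α → ℝ) (hI : Inv r M U W)
    (hr : 2*(r+1) ≤ Fintype.card α) (f b : α) (hf : f ∈ U) (hb : b ∈ U.erase f) :
    Inv (r+1) (insert f M) ((U.erase f).erase b) (upd U W) := by
  have hS : (0:ℝ) < (Fintype.card α:ℝ) - 2*r := by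
    have : ((2*(r+1) : ℕ):ℝ) ≤ (Fintype.card α:ℝ) := by exact_mod_cast hr
    push_cast at this; linarith
  have hcard : (U.card : ℝ) = (Fintype.card α:ℝ) - 2*r := by
    have := hI.card
    have h2 : ((U.card + 2*r : ℕ) : ℝ) = (Fintype.card α:ℝ) := by exact_mod_cast this
    push_cast at h2; linarith
  have hbU : b ∈ U := mem_of_mem_erase hb
  have hbf : b ≠ f := (mem_erase.mp hb).1
  have hupdU : ∀ e ∈ U, upd U W e = lev (Fintype.card α) (r+1) := by
    intro e he
    unfold upd
    rw [if_pos he, hI.onU e he, hcard, lev_succ]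
  have hupdN : ∀ e, e ∉ U → upd U W e = W e := by
    intro e he
    unfold upd
    rw [if_neg he, add_zero]
  have hlev : lev (Fintype.card α) r ≤ lev (Fintype.card α) (r+1) := by
    rw [lev_succ]
    have : 0 < 1/((Fintype.card α:ℝ) - 2*r) := by positivity
    linarith
  have hlev0 : 0 ≤ lev (Fintype.card α) (r+1) := lev_nonneg _ _ hr
  refine ⟨?_, ?_, ?_, ?_, ?_, ?_, ?_⟩
  · rw [disjoint_insert_left]
    constructor
    · intro h
      exact notMem_erase f U (mem_of_mem_erase h)
    · exact disjoint_of_subset_right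
        (fun e he => mem_of_mem_erase (mem_of_mem_erase he)) hI.disj
  · have h1 := hI.card
    rw [card_erase_of_mem hb, card_erase_of_mem hf]
    omega
  · intro e he
    exact hupdU e (mem_of_mem_erase (mem_of_mem_erase he))
  · intro e
    by_cases he : e ∈ U
    · rw [hupdU e he]; exact hlev0
    · rw [hupdN e he]; exact hI.nonneg e
  · intro e
    by_cases he : e ∈ U
    · rw [hupdU e he]
    · rw [hupdN e he]; exact le_trans (hI.le e) hlev
  · intro e _
    by_cases he : e ∈ U
    · rw [hupdU e he, lev_succ]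
      have h1 : 0 ≤ lev (Fintype.card α) r := lev_nonneg _ _ (by omega)
      have h2 : 0 < 1/((Fintype.card α:ℝ) - 2*r) := by positivity
      linarith
    · rw [hupdN e he]; exact hI.pos e he
  · have hcompl : ((U.erase f).erase b)ᶜ = insert b (insert f Uᶜ) := by
      ext e
      simp only [mem_compl, mem_erase, mem_insert]
      by_cases h1 : e = b
      · simp [h1]
      · by_cases h2 : e = f
        · simp [h2]
        · simp [h1, h2]
    have hf' : f ∉ Uᶜ := by simp [hf]
    have hb' : b ∉ insert f Uᶜ := by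
      rw [mem_insert, mem_compl]
      rintro (h | h)
      · exact hbf h
      · exact h hbU
    rw [hcompl, sum_insert hb', sum_insert hf', sum_range_succ]
    have e1 : ∑ e ∈ Uᶜ, -Real.log ((ind (insert f M) e + upd U W e)/2)
        = ∑ e ∈ Uᶜ, -Real.log ((ind M e + W e)/2) := by
      apply sum_congr rfl
      intro e he
      rw [mem_compl] at he
      have hef : e ≠ f := fun h => he (h ▸ hf)
      rw [hupdN e he]
      unfold ind
      simp only [mem_insert, hef, false_or]
    have e2 : -Real.log ((ind (insert f M) f + upd U W f)/2) ≤ Real.log 2 := by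
      rw [ind_mem _ _ (mem_insert_self _ _), hupdU f hf]
      have h1 : Real.log (1/2) ≤ Real.log ((1 + lev (Fintype.card α) (r+1))/2) := by
        apply Real.log_le_log (by norm_num)
        linarith
      rw [one_div, Real.log_inv] at h1
      linarith
    have e3 : -Real.log ((ind (insert f M) b + upd U W b)/2)
        ≤ Real.log (2*(Fintype.card α : ℝ)/((r:ℝ)+1)) := by
      have hbM : b ∉ insert f M := by
        rw [mem_insert]
        rintro (h | h)
        · exact hbf h
        · exact disjoint_left.mp hI.disj h hbU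
      rw [ind_notMem _ _ hbM, hupdU b hbU, zero_add]
      have h1 := lev_lb (Fintype.card α) (r+1) hr
      have hS0 : (0:ℝ) < Fintype.card α := by
        have : (0:ℝ) ≤ r := Nat.cast_nonneg r
        linarith
      push_cast at h1
      have h2 : Real.log (((r:ℝ)+1)/(2*(Fintype.card α:ℝ)))
          ≤ Real.log (lev (Fintype.card α) (r+1)/2) := by
        apply Real.log_le_log (by positivity)
        have : ((r:ℝ)+1)/(2*(Fintype.card α:ℝ)) = (((r:ℝ)+1)/(Fintype.card α:ℝ))/2 := by
          field_simp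
        rw [this]
        linarith
      have h3 : Real.log (2*(Fintype.card α : ℝ)/((r:ℝ)+1))
          = -Real.log (((r:ℝ)+1)/(2*(Fintype.card α:ℝ))) := by
        rw [← Real.log_inv, inv_div]
      rw [h3]
      linarith
    have := hI.energy
    linarith

lemma Inv.total (r0 : ℕ) (M U : Finset α) (W : α → ℝ) (hI : Inv r0 M U W)
    (hr0 : 2*r0 ≤ Fintype.card α) (hr1 : 1 ≤ r0) :
    ∑ e, -Real.log ((ind M e + W e)/2)
      ≤ ((Fintype.card α : ℝ) - 2*r0) * Real.log (2*(Fintype.card α : ℝ)/r0)
      + ∑ s ∈ range r0, (Real.log 2 + Real.log (2*(Fintype.card α : ℝ)/((s:ℝ)+1))) := by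
  set S : ℕ := Fintype.card α with hS
  have hr1' : (1:ℝ) ≤ r0 := by exact_mod_cast hr1
  have hSpos : (0:ℝ) < S := by
    have : ((2*r0 : ℕ):ℝ) ≤ S := by exact_mod_cast hr0
    push_cast at this; linarith
  have h5 : ∑ e ∈ U, -Real.log ((ind M e + W e)/2)
      ≤ ((S:ℝ) - 2*r0) * Real.log (2*(S:ℝ)/r0) := by
    have h6 : ∀ e ∈ U, -Real.log ((ind M e + W e)/2) ≤ Real.log (2*(S:ℝ)/r0) := by
      intro e he
      have heM : e ∉ M := fun h => disjoint_left.mp hI.disj h he
      rw [ind_notMem _ _ heM, hI.onU e he, zero_add]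
      have h7 := lev_lb S r0 hr0
      have h8 : Real.log ((r0:ℝ)/(2*S)) ≤ Real.log (lev S r0/2) := by
        apply Real.log_le_log (by positivity)
        have : (r0:ℝ)/(2*S) = ((r0:ℝ)/S)/2 := by field_simp
        rw [this]
        linarith
      have h9 : Real.log (2*(S:ℝ)/r0) = -Real.log ((r0:ℝ)/(2*S)) := by
        rw [← Real.log_inv, inv_div]
      rw [h9]
      linarith
    refine le_trans (sum_le_sum h6) (le_of_eq ?_)
    rw [sum_const, nsmul_eq_mul]
    congr 1
    have := hI.card
    have h2 : ((U.card + 2*r0 : ℕ) : ℝ) = (S:ℝ) := by exact_mod_cast this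
    push_cast at h2; linarith
  have h10 := hI.energy
  have h11 : ∑ e, -Real.log ((ind M e + W e)/2)
      = ∑ e ∈ U, -Real.log ((ind M e + W e)/2) + ∑ e ∈ Uᶜ, -Real.log ((ind M e + W e)/2) := by
    rw [sum_add_sum_compl]
  rw [h11]
  exact add_le_add h5 h10

/-- the main lower bound for the value: if at the end of round `r0` either `P` holds or one of
the tests fails, then the failure probability is at most the initial sum of the tests. -/
theorem le_prob {J : Type} (𝒥 : Finset J) (a : J → α → ℝ) (s t : J → ℝ)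
    (ha : ∀ j, ∀ e, 0 ≤ a j e ∧ a j e ≤ 2) (hs : ∀ j, |s j| ≤ 1/2)
    (P : Finset α → Prop) (hmono : ∀ M M', P M → M ⊆ M' → P M') (β : Strategy α)
    (r0 : ℕ) (hr0 : 2*r0 ≤ Fintype.card α)
    (hgood : ∀ M U W, Inv r0 M U W →
      (∀ j ∈ 𝒥, s j * (∑ e ∈ M, a j e - ∑ e, a j e * W e) - 2 * (s j)^2 * ∑ e, a j e * W e < t j)
      → P M) (k : ℕ) :
    ∀ (r : ℕ) (h : List α) (M U : Finset α) (W : α → ℝ) (n : ℕ), r + k = r0 → k ≤ n →
      Inv r M U W → 1 - ∑ j ∈ 𝒥, Real.exp (-(t j)) * Zf (a j) (s j) M W ≤ prob P β n h M U := by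
  induction k with
  | zero =>
    intro r h M U W n hr _ hI
    have hr' : r = r0 := by omega
    subst hr'
    have hpos : ∀ j ∈ 𝒥, 0 ≤ Real.exp (-(t j)) * Zf (a j) (s j) M W :=
      fun j _ => mul_nonneg (Real.exp_pos _).le (Real.exp_pos _).le
    by_cases hlt : ∀ j ∈ 𝒥,
        s j * (∑ e ∈ M, a j e - ∑ e, a j e * W e) - 2 * (s j)^2 * ∑ e, a j e * W e < t j
    · have hP := hgood M U W hI hlt
      rw [prob_eq_one P hmono β n h M U hP]
      have := sum_nonneg hpos
      linarith
    · push Not at hlt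
      obtain ⟨j, hj, hjt⟩ := hlt
      have h1 : 1 ≤ Real.exp (-(t j)) * Zf (a j) (s j) M W := by
        unfold Zf
        rw [← Real.exp_add, ← Real.exp_zero]
        apply Real.exp_le_exp.mpr
        linarith
      have h2 := single_le_sum hpos hj
      have h3 := prob_nonneg P β n h M U
      linarith
  | succ k ih =>
    intro r h M U W n hr hn hI
    obtain ⟨n, rfl⟩ : ∃ m, n = m + 1 := ⟨n - 1, by omega⟩
    have hcard := hI.card
    have hU2 : 2 ≤ U.card := by omega
    have hUn : U.Nonempty := card_pos.mp (by omega)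
    have hc : (0:ℝ) < U.card := by exact_mod_cast hUn.card_pos
    simp only [prob]
    rw [if_neg hUn.ne_empty]
    have hstep : ∀ f ∈ U, 1 - ∑ j ∈ 𝒥, Real.exp (-(t j)) * Zf (a j) (s j) (insert f M) (upd U W)
        ≤ (if hne : (U.erase f).Nonempty then
          prob P β n ((β (f :: h) (U.erase f) hne).1 :: f :: h) (insert f M)
            ((U.erase f).erase (β (f :: h) (U.erase f) hne).1)
          else prob P β n (f :: h) (insert f M) ∅) := by
      intro f hf
      have hne : (U.erase f).Nonempty := by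
        apply card_pos.mp
        rw [card_erase_of_mem hf]
        omega
      rw [dif_pos hne]
      apply ih (r+1) _ _ _ (upd U W) n (by omega) (by omega)
      exact inv_step r M U W hI (by omega) f _ hf (β (f :: h) (U.erase f) hne).2
    have h1 : (∑ f ∈ U, (1 - ∑ j ∈ 𝒥,
        Real.exp (-(t j)) * Zf (a j) (s j) (insert f M) (upd U W))) / (U.card:ℝ)
        ≤ (∑ f ∈ U, if hne : (U.erase f).Nonempty then
          prob P β n ((β (f :: h) (U.erase f) hne).1 :: f :: h) (insert f M)
            ((U.erase f).erase (β (f :: h) (U.erase f) hne).1)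
          else prob P β n (f :: h) (insert f M) ∅) / (U.card:ℝ) :=
      div_le_div_of_nonneg_right (sum_le_sum hstep) hc.le
    refine le_trans ?_ h1
    rw [sum_sub_distrib, sum_const, nsmul_eq_mul, mul_one, sub_div, div_self hc.ne']
    apply sub_le_sub_left
    rw [sum_comm, sum_div]
    apply sum_le_sum
    intro j _
    rw [← mul_sum, mul_div_assoc]
    exact mul_le_mul_of_nonneg_left
      (Zf_step (a j) (s j) M U W hUn hI.disj (ha j) (hs j)) (Real.exp_pos _).le

end

end Pool.Agent.H230R2.RM
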