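import Pool.Agent.H230R2.RM.Defs

set_option autoImplicit false

namespace Pool.Agent.H230R2.RM

open Finset

/-- the weight function -/
noncomputable def w (D : ℕ) (x0 : ℝ) : ℕ → ℝ
  | 0 => x0
  | 1 => if 1 ≤ D then x0 else 1
  | (m+2) => if m+2 ≤ D then x0 else (1 - 1/((m:ℝ)+2)) * w D x0 m + 1/((m:ℝ)+2)

lemma w_const (D : ℕ) (x0 : ℝ) (m : ℕ) (h : m ≤ D) : w D x0 m = x0 := by
  match m, h with
  | 0, _ => simp [w]
  | 1, h => simp [w, h]
  | (m+2), h => simp [w, h]

lemma w_step (D : ℕ) (x0 : ℝ) (m : ℕ) (h : D < m) :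
    w D x0 m = (1 - 1/(m:ℝ)) * w D x0 (m-2) + 1/(m:ℝ) := by
  match m, h with
  | 1, h =>
    have : ¬ (1 ≤ D) := by omega
    simp [w, this]
  | (m+2), h =>
    have : ¬ (m + 2 ≤ D) := by omega
    simp only [w, this, if_false]
    push_cast
    simp

lemma w_mem (D : ℕ) (x0 : ℝ) (h0 : 0 ≤ x0) (h1 : x0 ≤ 1) (m : ℕ) :
    0 ≤ w D x0 m ∧ w D x0 m ≤ 1 := by
  induction m using Nat.strong_induction_on with
  | _ m ih =>
    by_cases hm : m ≤ D
    · rw [w_const D x0 m hm]; exact ⟨h0, h1⟩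
    · have hD : D < m := by omega
      have hm0 : (1:ℝ) ≤ m := by exact_mod_cast (by omega : 1 ≤ m)
      have hlt : m - 2 < m := by omega
      obtain ⟨a, b⟩ := ih (m-2) hlt
      rw [w_step D x0 m hD]
      have h2 : 0 < 1/(m:ℝ) := by positivity
      have h3 : 1/(m:ℝ) ≤ 1 := by
        rw [div_le_one (by linarith)]; exact hm0
      constructor
      · have : 0 ≤ (1 - 1/(m:ℝ)) * w D x0 (m-2) := mul_nonneg (by linarith) a
        linarith
      · have : (1 - 1/(m:ℝ)) * w D x0 (m-2) ≤ (1 - 1/(m:ℝ)) * 1 :=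
          mul_le_mul_of_nonneg_left b (by linarith)
        linarith

/-- the product inequality -/
lemma prod_step {α : Type} [DecidableEq α] (x : α → ℝ) (m : ℝ) (hm : 0 < m) (A : Finset α) :
    (∀ e ∈ A, 0 ≤ x e) → (∀ e ∈ A, x e ≤ 1) → (A.card : ℝ) ≤ m →
    (1 - A.card/m) * ∏ e ∈ A, x e + (1/m) * ∑ f ∈ A, ∏ e ∈ A.erase f, x e
      ≤ ∏ e ∈ A, ((1-1/m) * x e + 1/m) := by
  induction A using Finset.induction_on with
  | empty => intro _ _ _; simp
  | insert a A ha ih =>
    intro h0 h1 hc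
    have h0' : ∀ e ∈ A, 0 ≤ x e := fun e he => h0 e (mem_insert_of_mem he)
    have h1' : ∀ e ∈ A, x e ≤ 1 := fun e he => h1 e (mem_insert_of_mem he)
    have hxa0 : 0 ≤ x a := h0 a (mem_insert_self _ _)
    have hxa1 : x a ≤ 1 := h1 a (mem_insert_self _ _)
    rw [card_insert_of_notMem ha] at hc
    push_cast at hc
    have hc' : (A.card : ℝ) ≤ m := by linarith
    have IH := ih h0' h1' hc'
    have hm1 : (1:ℝ) ≤ m := by
      have : (0:ℝ) ≤ A.card := Nat.cast_nonneg _
      linarith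
    rw [prod_insert ha, prod_insert ha, card_insert_of_notMem ha, sum_insert ha,
      erase_insert ha]
    have hs : ∑ f ∈ A, ∏ e ∈ (insert a A).erase f, x e
        = x a * ∑ f ∈ A, ∏ e ∈ A.erase f, x e := by
      rw [mul_sum]
      apply sum_congr rfl
      intro f hf
      have hne : f ≠ a := fun h => ha (h ▸ hf)
      have hne' : a ≠ f := fun h => hne h.symm
      rw [erase_insert_of_ne hne']
      rw [prod_insert]
      intro h
      exact ha (mem_of_mem_erase h)
    rw [hs]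
    set X := ∏ e ∈ A, x e with hX
    set S := ∑ f ∈ A, ∏ e ∈ A.erase f, x e with hS
    have hSX : (A.card : ℝ) * X ≤ S := by
      rw [hS, ← nsmul_eq_mul, ← sum_const]
      apply sum_le_sum
      intro f hf
      rw [hX, ← mul_prod_erase A x hf]
      have hp : 0 ≤ ∏ e ∈ A.erase f, x e :=
        prod_nonneg fun e he => h0' e (mem_of_mem_erase he)
      calc x f * ∏ e ∈ A.erase f, x e ≤ 1 * ∏ e ∈ A.erase f, x e :=
            mul_le_mul_of_nonneg_right (h1' f hf) hp
        _ = _ := one_mul _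
    have hy : 0 ≤ (1 - 1/m) * x a + 1/m := by
      have h2 : 0 < 1/m := by positivity
      have h3 : 1/m ≤ 1 := by rw [div_le_one hm]; exact hm1
      have : 0 ≤ (1 - 1/m) * x a := mul_nonneg (by linarith) hxa0
      linarith
    have key := mul_le_mul_of_nonneg_left IH hy
    refine le_trans ?_ key
    have hdiff : ((1 - 1/m) * x a + 1/m) * ((1 - (A.card:ℝ)/m) * X + 1/m * S)
        - ((1 - ((A.card + 1 : ℕ):ℝ)/m) * (x a * X) + 1/m * (X + x a * S))
        = (1/m)^2 * ((1 - x a) * (S - A.card * X)) := by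
      push_cast
      field_simp
      ring
    have hpos : 0 ≤ (1/m)^2 * ((1 - x a) * (S - A.card * X)) := by
      apply mul_nonneg (by positivity)
      apply mul_nonneg (by linarith) (by linarith)
    linarith

/-- averaged form: `A ⊆ U`, one element of `U` is removed at random. -/
lemma avg_step {α : Type} [DecidableEq α] (x : α → ℝ) (U A : Finset α) (hAU : A ⊆ U)
    (hU : U.Nonempty) (h0 : ∀ e ∈ A, 0 ≤ x e) (h1 : ∀ e ∈ A, x e ≤ 1) :
    (∑ f ∈ U, ∏ e ∈ A.erase f, x e) / (U.card : ℝ)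
      ≤ ∏ e ∈ A, ((1-1/(U.card:ℝ)) * x e + 1/(U.card:ℝ)) := by
  have hm : (0:ℝ) < U.card := by exact_mod_cast hU.card_pos
  have hc : (A.card : ℝ) ≤ U.card := by exact_mod_cast card_le_card hAU
  have := prod_step x U.card hm A h0 h1 hc
  refine le_trans (le_of_eq ?_) this
  have hsplit : ∑ f ∈ U, ∏ e ∈ A.erase f, x e
      = (((U.card:ℝ) - A.card) * ∏ e ∈ A, x e) + ∑ f ∈ A, ∏ e ∈ A.erase f, x e := by
    rw [← sum_sdiff hAU]
    congr 1
    have : ∀ f ∈ U \ A, ∏ e ∈ A.erase f, x e = ∏ e ∈ A, x e := by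
      intro f hf
      rw [erase_eq_of_notMem (mem_sdiff.mp hf).2]
    rw [sum_congr rfl this, sum_const, nsmul_eq_mul]
    congr 1
    rw [card_sdiff_of_subset hAU, Nat.cast_sub (card_le_card hAU)]
  rw [hsplit]
  field_simp

end Pool.Agent.H230R2.RM
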