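import Pool.Agent.H230R2.RM.Super

set_option autoImplicit false

namespace Pool.Agent.H230R2.RM

open Finset

/-- Breaker always claims an unclaimed position of least class. -/
noncomputable def minStrat {α : Type} (cl : α → ℕ) : Strategy α := fun _ U h =>
  ⟨(exists_min_image U cl h).choose, (exists_min_image U cl h).choose_spec.1⟩

lemma minStrat_le {α : Type} (cl : α → ℕ) (h : List α) (U : Finset α) (hU : U.Nonempty) :
    ∀ e ∈ U, cl (minStrat cl h U hU).1 ≤ cl e :=
  (exists_min_image U cl hU).choose_spec.2

lemma prob_nonneg {α : Type} (P : Finset α → Prop) (β : Strategy α) (n : ℕ) :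
    ∀ (h : List α) (M U : Finset α), 0 ≤ prob P β n h M U := by
  classical
  induction n with
  | zero => intro h M U; simp only [prob]; split_ifs <;> norm_num
  | succ n ih =>
    intro h M U
    simp only [prob]
    split_ifs
    · norm_num
    · norm_num
    · apply div_nonneg _ (Nat.cast_nonneg _)
      apply sum_nonneg
      intro e _
      split_ifs
      · exact ih _ _ _
      · exact ih _ _ _

lemma prob_le_one {α : Type} (P : Finset α → Prop) (β : Strategy α) (n : ℕ) :
    ∀ (h : List α) (M U : Finset α), prob P β n h M U ≤ 1 := by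
  classical
  induction n with
  | zero => intro h M U; simp only [prob]; split_ifs <;> norm_num
  | succ n ih =>
    intro h M U
    simp only [prob]
    split_ifs with hU
    · norm_num
    · norm_num
    · have hc : (0:ℝ) < U.card := by
        exact_mod_cast (nonempty_iff_ne_empty.mpr hU).card_pos
      rw [div_le_one hc]
      calc _ ≤ ∑ e ∈ U, (1:ℝ) := by
            apply sum_le_sum
            intro e _
            split_ifs
            · exact ih _ _ _
            · exact ih _ _ _
        _ = _ := by simp

section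

variable {α : Type}

open Classical

/-- the first potential -/
noncomputable def psi (cl : α → ℕ) (D : ℕ → ℕ) (𝒜 : Finset (Finset α)) (M U : Finset α) : ℝ :=
  ∑ A ∈ 𝒜, if A ⊆ M ∪ U then ∏ e ∈ A ∩ U, w (D (cl e)) 0 U.card else 0

/-- the second potential -/
noncomputable def phi (cl : α → ℕ) (D : ℕ → ℕ) (lam : ℕ → ℝ) (i : ℕ) (U : Finset α) : ℝ :=
  if ∃ e ∈ U, cl e ≤ i then
    (w (D i) (lam i) U.card) ^ (U.filter (fun e => i < cl e)).card / (lam i) ^ (D i - 1)
  else 0

lemma psi_nonneg (cl : α → ℕ) (D : ℕ → ℕ) (𝒜 : Finset (Finset α)) (M U : Finset α) :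
    0 ≤ psi cl D 𝒜 M U := by
  unfold psi
  apply sum_nonneg
  intro A _
  split_ifs
  · apply prod_nonneg
    intro e _
    exact (w_mem _ 0 le_rfl zero_le_one _).1
  · exact le_rfl

lemma phi_nonneg (cl : α → ℕ) (D : ℕ → ℕ) (lam : ℕ → ℝ) (i : ℕ) (U : Finset α)
    (h0 : 0 < lam i) (h1 : lam i ≤ 1) : 0 ≤ phi cl D lam i U := by
  unfold phi
  split_ifs
  · exact div_nonneg (pow_nonneg (w_mem _ _ h0.le h1 _).1 _) (pow_nonneg h0.le _)
  · exact le_rfl

lemma psi_start [Fintype α] (cl : α → ℕ) (D : ℕ → ℕ) (𝒜 : Finset (Finset α)) :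
    psi cl D 𝒜 ∅ (univ : Finset α)
      = ∑ A ∈ 𝒜, ∏ e ∈ A, w (D (cl e)) 0 (univ : Finset α).card := by
  unfold psi
  apply sum_congr rfl
  intro A _
  rw [if_pos (by intro x _; simp), inter_univ]

/-- one round for the first potential -/
lemma psi_step (cl : α → ℕ) (D : ℕ → ℕ) (𝒜 : Finset (Finset α)) (M U : Finset α)
    (hU : U.Nonempty) (hMU : Disjoint M U) (hD : ∀ e ∈ U, D (cl e) < U.card)
    (V : α → Finset α) (hV : ∀ f ∈ U, V f ⊆ U.erase f) (hVc : ∀ f ∈ U, (V f).card = U.card - 2) :
    (∑ f ∈ U, psi cl D 𝒜 (insert f M) (V f)) / (U.card : ℝ) ≤ psi cl D 𝒜 M U := by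
  have hm : (0:ℝ) < U.card := by exact_mod_cast hU.card_pos
  set x : α → ℝ := fun e => w (D (cl e)) 0 (U.card - 2) with hx
  have hx0 : ∀ e, 0 ≤ x e := fun e => (w_mem _ 0 le_rfl zero_le_one _).1
  have hx1 : ∀ e, x e ≤ 1 := fun e => (w_mem _ 0 le_rfl zero_le_one _).2
  have h1 : ∀ f ∈ U, psi cl D 𝒜 (insert f M) (V f) ≤
      ∑ A ∈ 𝒜, if A ⊆ M ∪ U then ∏ e ∈ (A ∩ U).erase f, x e else 0 := by
    intro f hf
    unfold psi
    apply sum_le_sum
    intro A _
    by_cases hA : A ⊆ insert f M ∪ V f
    · have hA' : A ⊆ M ∪ U := by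
        intro e he
        have := hA he
        rw [mem_union, mem_insert] at this
        rw [mem_union]
        rcases this with (h | h) | h
        · right; rw [h]; exact hf
        · left; exact h
        · right; exact mem_of_mem_erase (hV f hf h)
      rw [if_pos hA, if_pos hA', hVc f hf]
      apply le_of_eq
      apply prod_congr _ (fun _ _ => rfl)
      ext e
      rw [mem_inter, mem_erase, mem_inter]
      constructor
      · rintro ⟨h1, h2⟩
        have := hV f hf h2
        rw [mem_erase] at this
        exact ⟨this.1, h1, this.2⟩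
      · rintro ⟨h1, h2, h3⟩
        refine ⟨h2, ?_⟩
        have := hA h2
        rw [mem_union, mem_insert] at this
        rcases this with (h | h) | h
        · exact absurd h h1
        · exact absurd h3 (disjoint_left.mp hMU h)
        · exact h
    · rw [if_neg hA]
      split_ifs
      · exact prod_nonneg fun e _ => hx0 e
      · exact le_rfl
  calc (∑ f ∈ U, psi cl D 𝒜 (insert f M) (V f)) / (U.card : ℝ)
      ≤ (∑ f ∈ U, ∑ A ∈ 𝒜, if A ⊆ M ∪ U then ∏ e ∈ (A ∩ U).erase f, x e else 0) / (U.card:ℝ) :=
        div_le_div_of_nonneg_right (sum_le_sum h1) hm.le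
    _ = ∑ A ∈ 𝒜, if A ⊆ M ∪ U then
          (∑ f ∈ U, ∏ e ∈ (A ∩ U).erase f, x e) / (U.card:ℝ) else 0 := by
        rw [sum_comm, sum_div]
        apply sum_congr rfl
        intro A _
        split_ifs
        · rfl
        · simp
    _ ≤ psi cl D 𝒜 M U := by
        unfold psi
        apply sum_le_sum
        intro A _
        split_ifs
        · refine le_trans (avg_step x U (A ∩ U) inter_subset_right hU (fun e _ => hx0 e)
            (fun e _ => hx1 e)) (le_of_eq ?_)
          apply prod_congr rfl
          intro e he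
          rw [w_step _ 0 U.card (hD e (mem_inter.mp he).2)]
        · exact le_rfl

/-- one round for the second potential -/
lemma phi_step (cl : α → ℕ) (D : ℕ → ℕ) (lam : ℕ → ℝ) (i : ℕ) (U : Finset α)
    (hU : U.Nonempty) (h0 : 0 < lam i) (h1 : lam i ≤ 1)
    (hD : (∃ e ∈ U, cl e ≤ i) → D i < U.card)
    (V : α → Finset α) (hV : ∀ f ∈ U, V f ⊆ U.erase f) (hVc : ∀ f ∈ U, (V f).card = U.card - 2)
    (hV2 : ∀ f ∈ U, (∃ e ∈ V f, cl e ≤ i) → ∀ e ∈ U.erase f, i < cl e → e ∈ V f) :
    (∑ f ∈ U, phi cl D lam i (V f)) / (U.card : ℝ) ≤ phi cl D lam i U := by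
  have hm : (0:ℝ) < U.card := by exact_mod_cast hU.card_pos
  by_cases hex : ∃ e ∈ U, cl e ≤ i
  · have hD' := hD hex
    set x : α → ℝ := fun e => w (D i) (lam i) (U.card - 2) with hx
    have hx0 : ∀ e, 0 ≤ x e := fun e => (w_mem _ _ h0.le h1 _).1
    have hx1 : ∀ e, x e ≤ 1 := fun e => (w_mem _ _ h0.le h1 _).2
    set R := U.filter (fun e => i < cl e) with hR
    have hlp : 0 < (lam i) ^ (D i - 1) := pow_pos h0 _
    have h2 : ∀ f ∈ U, phi cl D lam i (V f) ≤
        (∏ e ∈ R.erase f, x e) / (lam i) ^ (D i - 1) := by
      intro f hf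
      unfold phi
      split_ifs with hv
      · apply le_of_eq
        congr 1
        rw [hVc f hf, prod_const]
        congr 1
        apply congrArg
        ext e
        rw [mem_filter, mem_erase, hR, mem_filter]
        constructor
        · rintro ⟨a, b⟩
          have := hV f hf a
          rw [mem_erase] at this
          exact ⟨this.1, this.2, b⟩
        · rintro ⟨a, b, c⟩
          exact ⟨hV2 f hf hv e (mem_erase.mpr ⟨a, b⟩) c, c⟩
      · exact div_nonneg (prod_nonneg fun e _ => hx0 e) hlp.le
    have h3 : phi cl D lam i U = (∏ e ∈ R, ((1-1/(U.card:ℝ)) * x e + 1/(U.card:ℝ)))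
        / (lam i) ^ (D i - 1) := by
      unfold phi
      rw [if_pos hex]
      congr 1
      rw [w_step _ _ _ hD']
      simp only [hx]
      rw [prod_const]
    rw [h3]
    calc (∑ f ∈ U, phi cl D lam i (V f)) / (U.card : ℝ)
        ≤ (∑ f ∈ U, (∏ e ∈ R.erase f, x e) / (lam i) ^ (D i - 1)) / (U.card:ℝ) :=
          div_le_div_of_nonneg_right (sum_le_sum h2) hm.le
      _ = ((∑ f ∈ U, ∏ e ∈ R.erase f, x e) / (U.card:ℝ)) / (lam i) ^ (D i - 1) := by
          rw [← sum_div]; ring
      _ ≤ _ := by
          apply div_le_div_of_nonneg_right _ hlp.le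
          exact avg_step x U R (filter_subset _ _) hU (fun e _ => hx0 e) (fun e _ => hx1 e)
  · have h4 : phi cl D lam i U = 0 := by unfold phi; rw [if_neg hex]
    have h5 : ∀ f ∈ U, phi cl D lam i (V f) = 0 := by
      intro f hf
      unfold phi
      rw [if_neg]
      rintro ⟨e, he, hc⟩
      exact hex ⟨e, mem_of_mem_erase (hV f hf he), hc⟩
    rw [sum_congr rfl h5, h4]
    simp

/-- the main bound on the value -/
theorem prob_le (P : Finset α → Prop) (cl : α → ℕ) (D : ℕ → ℕ) (lam : ℕ → ℝ) (H : ℕ)
    (𝒜 : Finset (Finset α)) (hP : ∀ M, P M → ∃ A ∈ 𝒜, A ⊆ M)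
    (h0 : ∀ i, 0 < lam i) (h1 : ∀ i, lam i ≤ 1) (hDH : ∀ i, H ≤ i → D i = 0) (n : ℕ) :
    ∀ (h : List α) (M U : Finset α), U.card ≤ n → Disjoint M U →
      prob P (minStrat cl) n h M U
        ≤ psi cl D 𝒜 M U + ∑ i ∈ range H, phi cl D lam i U := by
  have hterm : ∀ M : Finset α, (if P M then (1:ℝ) else 0)
      ≤ psi cl D 𝒜 M ∅ + ∑ i ∈ range H, phi cl D lam i ∅ := by
    intro M
    have hs : 0 ≤ ∑ i ∈ range H, phi cl D lam i (∅ : Finset α) :=
      sum_nonneg fun i _ => phi_nonneg cl D lam i ∅ (h0 i) (h1 i)
    have hpsi := psi_nonneg cl D 𝒜 M ∅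
    split_ifs with hPM
    · obtain ⟨A, hA, hAM⟩ := hP M hPM
      have : 1 ≤ psi cl D 𝒜 M ∅ := by
        unfold psi
        have hle := single_le_sum (f := fun A => if A ⊆ M ∪ ∅ then
          ∏ e ∈ A ∩ ∅, w (D (cl e)) 0 (∅ : Finset α).card else 0) (s := 𝒜) (by
            intro B _
            split_ifs
            · exact prod_nonneg fun e _ => (w_mem _ 0 le_rfl zero_le_one _).1
            · exact le_rfl) hA
        refine le_trans (le_of_eq ?_) hle
        rw [if_pos (by simpa using hAM)]
        simp
      linarith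
    · linarith
  induction n with
  | zero =>
    intro h M U hUc hMU
    have hU : U = ∅ := by
      rw [← card_eq_zero]; omega
    subst hU
    simp only [prob]
    exact hterm M
  | succ n ih =>
    intro h M U hUc hMU
    by_cases hUe : U = ∅
    · subst hUe
      simp only [prob, if_true]
      exact hterm M
    have hUn : U.Nonempty := nonempty_iff_ne_empty.mpr hUe
    have hm : (0:ℝ) < U.card := by exact_mod_cast hUn.card_pos
    by_cases hfail : ∃ i ∈ range H, (∃ e ∈ U, cl e ≤ i) ∧ U.card ≤ D i
    · obtain ⟨i, hi, hex, hc⟩ := hfail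
      have hphi : 1 ≤ phi cl D lam i U := by
        unfold phi
        rw [if_pos hex, w_const _ _ _ hc]
        have hlp : 0 < (lam i) ^ (D i - 1) := pow_pos (h0 i) _
        rw [le_div_iff₀ hlp, one_mul]
        apply pow_le_pow_of_le_one (h0 i).le (h1 i)
        obtain ⟨e, he, hce⟩ := hex
        have hlt : (U.filter (fun e => i < cl e)).card < U.card := by
          apply card_lt_card
          rw [filter_ssubset]
          exact ⟨e, he, by omega⟩
        omega
      have hs : phi cl D lam i U ≤ ∑ i ∈ range H, phi cl D lam i U :=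
        single_le_sum (f := fun i => phi cl D lam i U)
          (fun j _ => phi_nonneg cl D lam j U (h0 j) (h1 j)) hi
      have hpsi := psi_nonneg cl D 𝒜 M U
      have := prob_le_one P (minStrat cl) (n+1) h M U
      linarith
    · push Not at hfail
      -- the next sets of unclaimed positions
      set V : α → Finset α := fun f => if hne : (U.erase f).Nonempty then
          (U.erase f).erase (minStrat cl (f :: h) (U.erase f) hne).1 else ∅ with hVdef
      have hVn : ∀ f (hne : (U.erase f).Nonempty),
          V f = (U.erase f).erase (minStrat cl (f :: h) (U.erase f) hne).1 := by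
        intro f hne; simp only [hVdef]; rw [dif_pos hne]
      have hVe : ∀ f, ¬ (U.erase f).Nonempty → V f = ∅ := by
        intro f hne; simp only [hVdef]; rw [dif_neg hne]
      have hV : ∀ f ∈ U, V f ⊆ U.erase f := by
        intro f hf
        by_cases hne : (U.erase f).Nonempty
        · rw [hVn f hne]; exact erase_subset _ _
        · rw [hVe f hne]; exact empty_subset _
      have hVc : ∀ f ∈ U, (V f).card = U.card - 2 := by
        intro f hf
        by_cases hne : (U.erase f).Nonempty
        · rw [hVn f hne, card_erase_of_mem (minStrat cl (f :: h) (U.erase f) hne).2,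
            card_erase_of_mem hf]
          omega
        · rw [hVe f hne]
          rw [not_nonempty_iff_eq_empty] at hne
          have : (U.erase f).card = 0 := by rw [hne]; rfl
          rw [card_erase_of_mem hf] at this
          rw [card_empty]
          omega
      have hV2 : ∀ i, ∀ f ∈ U, (∃ e ∈ V f, cl e ≤ i) → ∀ e ∈ U.erase f, i < cl e → e ∈ V f := by
        intro i f hf hex e he hie
        by_cases hne : (U.erase f).Nonempty
        · rw [hVn f hne] at hex ⊢
          obtain ⟨e', he', hce'⟩ := hex
          rw [mem_erase]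
          refine ⟨?_, he⟩
          intro heq
          have h2 := minStrat_le cl (f :: h) (U.erase f) hne e' (mem_of_mem_erase he')
          rw [← heq] at h2
          omega
        · exact absurd ⟨e, he⟩ hne
      have hD : ∀ e ∈ U, D (cl e) < U.card := by
        intro e he
        by_cases hc : cl e < H
        · by_contra hcon
          have := hfail (cl e) (mem_range.mpr hc) ⟨e, he, le_rfl⟩
          omega
        · rw [hDH (cl e) (by omega)]
          exact hUn.card_pos
      have hstep : ∀ f ∈ U, (if hne : (U.erase f).Nonempty then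
          prob P (minStrat cl) n ((minStrat cl (f :: h) (U.erase f) hne).1 :: f :: h) (insert f M)
            ((U.erase f).erase (minStrat cl (f :: h) (U.erase f) hne).1)
          else prob P (minStrat cl) n (f :: h) (insert f M) ∅)
          ≤ psi cl D 𝒜 (insert f M) (V f) + ∑ i ∈ range H, phi cl D lam i (V f) := by
        intro f hf
        have hcard : (V f).card ≤ n := by rw [hVc f hf]; omega
        have hdisj : Disjoint (insert f M) (V f) := by
          rw [disjoint_insert_left]
          constructor
          · intro hfv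
            have := hV f hf hfv
            exact (notMem_erase f U) this
          · exact disjoint_of_subset_right (fun e he => mem_of_mem_erase (hV f hf he)) hMU
        split_ifs with hne
        · have := ih ((minStrat cl (f :: h) (U.erase f) hne).1 :: f :: h) (insert f M) (V f)
            hcard hdisj
          rw [← hVn f hne]
          exact this
        · have := ih (f :: h) (insert f M) (V f) hcard hdisj
          rw [hVe f hne] at this ⊢
          exact this
      have hval : prob P (minStrat cl) (n+1) h M U ≤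
          (∑ f ∈ U, (psi cl D 𝒜 (insert f M) (V f) + ∑ i ∈ range H, phi cl D lam i (V f)))
            / (U.card : ℝ) := by
        simp only [prob]
        rw [if_neg hUe]
        exact div_le_div_of_nonneg_right (sum_le_sum hstep) hm.le
      refine le_trans hval ?_
      rw [sum_add_distrib, add_div]
      apply add_le_add
      · exact psi_step cl D 𝒜 M U hUn hMU hD V hV hVc
      · rw [sum_comm, sum_div]
        apply sum_le_sum
        intro i hi
        exact phi_step cl D lam i U hUn (h0 i) (h1 i) (fun hex => hfail i hi hex) V hV hVc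
          (hV2 i)

end

end Pool.Agent.H230R2.RM
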